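import Mathlib

set_option autoImplicit false

/-!
# Quasi-additive functions on a segment are almost linear (cyclic averaging)
-/

namespace Pool.Agent.H64.SD

open Finset

theorem cyc_sum (G : ℕ → ℝ) (h0 : G 0 = 0) (n x : ℕ) (hx : x ≤ n) :
    ∑ h ∈ range n, ((if x + h < n then G (x + h) else G (x + h - n) + G n) - G h) = x * G n := by
  have hsplit : ∑ h ∈ range n, (if x + h < n then G (x + h) else G (x + h - n) + G n) =
      ∑ h ∈ range (n - x), G (x + h) + ∑ h ∈ range x, (G h + G n) := by
    have hn : n = (n - x) + x := by omega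
    conv_lhs => rw [hn]
    rw [Finset.sum_range_add]
    congr 1
    · refine Finset.sum_congr rfl fun h hh => ?_
      rw [if_pos (by have := mem_range.1 hh; omega)]
    · refine Finset.sum_congr rfl fun h hh => ?_
      have := mem_range.1 hh
      rw [if_neg (by omega)]
      have e1 : x + (n - x + h) - (n - x + x) = h := by omega
      have e2 : n - x + x = n := by omega
      rw [e1, e2]
  rw [Finset.sum_sub_distrib, hsplit, Finset.sum_add_distrib, Finset.sum_const, card_range,
    nsmul_eq_mul]
  have h2 : ∑ h ∈ range n, G h = ∑ h ∈ range x, G h + ∑ h ∈ range (n - x), G (x + h) := by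
    have hn : n = x + (n - x) := by omega
    conv_lhs => rw [hn]
    rw [Finset.sum_range_add]
  rw [h2]
  ring

theorem quasi_linear {κ : Type} (s : Finset κ) (G : ℕ → κ → ℝ) (h0 : ∀ c, G 0 c = 0) (n : ℕ) (E : ℝ)
    (hE : ∀ x h, x + h ≤ n → ∑ c ∈ s, |G (x + h) c - G x c - G h c| ≤ E) (x : ℕ) (hx : x ≤ n) :
    ∑ c ∈ s, |n * G x c - x * G n c| ≤ 2 * n * E := by
  have hE0 : 0 ≤ E := le_trans (Finset.sum_nonneg fun _ _ => abs_nonneg _) (hE 0 0 (by omega))
  have h1 : ∀ c, n * G x c - x * G n c =
      ∑ h ∈ range n, (G x c - ((if x + h < n then G (x + h) c else G (x + h - n) c + G n c) -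
        G h c)) := by
    intro c
    rw [Finset.sum_sub_distrib, cyc_sum (fun y => G y c) (h0 c) n x hx, Finset.sum_const, card_range,
      nsmul_eq_mul]
  have h2 : ∀ h ∈ range n, ∑ c ∈ s,
      |G x c - ((if x + h < n then G (x + h) c else G (x + h - n) c + G n c) - G h c)| ≤ 2 * E := by
    intro h hh
    have hh' := mem_range.1 hh
    by_cases hlt : x + h < n
    · simp only [if_pos hlt]
      calc ∑ c ∈ s, |G x c - (G (x + h) c - G h c)| = ∑ c ∈ s, |G (x + h) c - G x c - G h c| := by
            refine Finset.sum_congr rfl fun c _ => ?_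
            rw [← abs_neg]
            congr 1
            ring
        _ ≤ E := hE x h hlt.le
        _ ≤ 2 * E := by linarith
    · simp only [if_neg hlt]
      push Not at hlt
      have h3 := hE (x + h - n) (n - h) (by omega)
      have h4 := hE h (n - h) (by omega)
      have e1 : x + h - n + (n - h) = x := by omega
      have e2 : h + (n - h) = n := by omega
      rw [e1] at h3
      rw [e2] at h4
      calc ∑ c ∈ s, |G x c - (G (x + h - n) c + G n c - G h c)|
          ≤ ∑ c ∈ s, (|G x c - G (x + h - n) c - G (n - h) c| +
              |G n c - G h c - G (n - h) c|) := by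
            refine Finset.sum_le_sum fun c _ => ?_
            have : G x c - (G (x + h - n) c + G n c - G h c) =
              (G x c - G (x + h - n) c - G (n - h) c) - (G n c - G h c - G (n - h) c) := by ring
            rw [this]
            exact abs_sub _ _
        _ ≤ E + E := by
            rw [Finset.sum_add_distrib]
            exact add_le_add h3 h4
        _ = 2 * E := by ring
  calc ∑ c ∈ s, |n * G x c - x * G n c|
      ≤ ∑ c ∈ s, ∑ h ∈ range n, |G x c - ((if x + h < n then G (x + h) c
          else G (x + h - n) c + G n c) - G h c)| := by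
        refine Finset.sum_le_sum fun c _ => ?_
        rw [h1 c]
        exact Finset.abs_sum_le_sum_abs _ _
    _ = ∑ h ∈ range n, ∑ c ∈ s, |G x c - ((if x + h < n then G (x + h) c
          else G (x + h - n) c + G n c) - G h c)| := Finset.sum_comm
    _ ≤ ∑ h ∈ range n, 2 * E := Finset.sum_le_sum h2
    _ = 2 * n * E := by rw [Finset.sum_const, card_range, nsmul_eq_mul]; ring

end Pool.Agent.H64.SD
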