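import Pool.Agent.H64.SD.Riesz2

set_option autoImplicit false
set_option linter.unusedSectionVars false

/-!
# The lower bound in `L¹(L^∞)`
-/

namespace Pool.Agent.H64.SD

open Finset

/-- pairing with `D` over the grid -/
noncomputable def pair (P : Finset (ℕ × ℕ)) (n X R : ℕ) (g : ℕ → ℕ → ℝ) : ℝ :=
  ∑ x ∈ range X, ∑ r ∈ range R, DD P n x r * g x r

theorem pair_add (P : Finset (ℕ × ℕ)) (n X R : ℕ) (g g' : ℕ → ℕ → ℝ) :
    pair P n X R (fun x r => g x r + g' x r) = pair P n X R g + pair P n X R g' := by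
  unfold pair
  simp only [mul_add, Finset.sum_add_distrib]

theorem pair_sum {ι : Type} (s : Finset ι) (P : Finset (ℕ × ℕ)) (n X R : ℕ) (g : ι → ℕ → ℕ → ℝ) :
    pair P n X R (fun x r => ∑ i ∈ s, g i x r) = ∑ i ∈ s, pair P n X R (g i) := by
  unfold pair
  simp only [Finset.mul_sum]
  have : ∀ x, ∑ r ∈ range R, ∑ i ∈ s, DD P n x r * g i x r =
      ∑ i ∈ s, ∑ r ∈ range R, DD P n x r * g i x r := fun x => Finset.sum_comm
  simp only [this]
  exact Finset.sum_comm

theorem pair_smul (P : Finset (ℕ × ℕ)) (n X R : ℕ) (v : ℝ) (g : ℕ → ℕ → ℝ) :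
    pair P n X R (fun x r => v * g x r) = v * pair P n X R g := by
  unfold pair
  simp only [Finset.mul_sum]
  refine Finset.sum_congr rfl fun x _ => Finset.sum_congr rfl fun r _ => ?_
  ring

theorem ee_zero (P : Finset (ℕ × ℕ)) (a q t : ℕ) (p : ℕ × ℕ) (hp : p ∈ P) (x r : ℕ)
    (h1 : x / (2 * UU a q t) = p.1 / (2 * UU a q t)) (h2 : r / (2 * 2 ^ t) = p.2 / (2 * 2 ^ t)) :
    ee P a q t x r = 0 := by
  unfold ee
  rw [if_pos ⟨p, hp, h1, h2⟩]

theorem UV_eq {a q t : ℕ} (ht : t < a) : UU a q t * 2 ^ t = 2 ^ (a - 1) * q := by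
  unfold UU
  have : a - 1 = (a - 1 - t) + t := by omega
  conv_rhs => rw [this, pow_add]
  ring

theorem UU_pos {a q t : ℕ} (hq : 0 < q) : 0 < UU a q t := by
  unfold UU; positivity

/-- main term -/
theorem pair_ff (P : Finset (ℕ × ℕ)) (a q n t : ℕ) (ht : t < a) (hq : 0 < q) (hn : 0 < n)
    (hP : P.card ≤ 2 ^ a) :
    (2 ^ (a - 1) * q : ℝ) * ((2 ^ (a + 2) * q) * 2 ^ a) / (8 * n) ≤
      pair P n (2 ^ (a + 2) * q) (2 ^ a) (fun x r => ff P a q t x r) := by
  have e1 : 2 ^ (a + 2) * q = 2 * UU a q t * 2 ^ (t + 2) := by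
    unfold UU
    have : 2 ^ (a + 2) = 2 * 2 ^ (a - 1 - t) * 2 ^ (t + 2) := by
      rw [← pow_succ', ← pow_add]; congr 1; omega
    rw [this]; ring
  have e2 : 2 ^ a = 2 * 2 ^ t * 2 ^ (a - 1 - t) := by
    rw [← pow_succ', ← pow_add]; congr 1; omega
  have h := pairing P n (UU a q t) (2 ^ t) (2 ^ (t + 2)) (2 ^ (a - 1 - t)) (UU_pos hq) (by positivity)
    (fun x r => -ee P a q t x r) (fun r => (ee_BCx P a q t r).neg) (fun x => (ee_BCr P a q t x).neg)
    (fun p hp x r h1 h2 => by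
      show -ee P a q t x r = 0
      rw [ee_zero P a q t p hp x r h1 h2, neg_zero])
  rw [← e1, ← e2] at h
  unfold pair ff
  rw [h]
  have h2 := sum_ee P a q t ht hq hP
  have hUV : ((UU a q t : ℕ) : ℝ) * ((2 ^ t : ℕ) : ℝ) = 2 ^ (a - 1) * q := by
    have := UV_eq (q := q) ht
    exact_mod_cast this
  have hn0 : (0 : ℝ) < n := by exact_mod_cast hn
  simp only [Finset.sum_neg_distrib, neg_mul_neg]
  rw [hUV]
  have h3 : (2 ^ (a - 1) * q : ℝ) / (4 * n) * ((2 ^ (a + 2) * q : ℝ) * 2 ^ a / 2) ≤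
    (2 ^ (a - 1) * q : ℝ) / (4 * n) *
      ∑ x ∈ range (2 ^ (a + 2) * q), ∑ r ∈ range (2 ^ a), ee P a q t x r :=
    mul_le_mul_of_nonneg_left h2 (by positivity)
  refine le_trans (le_of_eq ?_) h3
  field_simp
  ring

/-- the other terms -/
theorem pair_ff_Ps (P : Finset (ℕ × ℕ)) (a q n s t : ℕ) (hst : s < t) (ht : t < a) (hq : 0 < q)
    (hn : 0 < n) :
    |pair P n (2 ^ (a + 2) * q) (2 ^ a) (fun x r => ff P a q s x r * ff P a q t x r *
      Ps P a q s t x r)| ≤
      (2 ^ (a - 1) * q : ℝ) * ((2 ^ (a + 2) * q) * 2 ^ a) / (4 * n) *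
        ((1 / 2) ^ (t - s) * (5 / 4) ^ (t - s - 1)) := by
  have e1 : 2 ^ (a + 2) * q = 2 * UU a q t * 2 ^ (t + 2) := by
    unfold UU
    have : 2 ^ (a + 2) = 2 * 2 ^ (a - 1 - t) * 2 ^ (t + 2) := by
      rw [← pow_succ', ← pow_add]; congr 1; omega
    rw [this]; ring
  have e2 : 2 ^ a = 2 * 2 ^ s * 2 ^ (a - 1 - s) := by
    rw [← pow_succ', ← pow_add]; congr 1; omega
  set c : ℕ → ℕ → ℝ := fun x r =>
    (-ee P a q s x r * sg (UU a q s) x) * (-ee P a q t x r * sg (2 ^ t) r) * Ps P a q s t x r with hc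
  have hUs := UU_succ q hst ht
  have h2ts : 2 ^ (t - s) = 2 * 2 ^ (t - s - 1) := by
    rw [← pow_succ']; congr 1; omega
  have hcx : ∀ r, BC (2 * UU a q t) (fun x => c x r) := by
    intro r
    have b1 : BC (2 * UU a q t) (fun x => ee P a q s x r) := by
      apply BC.mono (2 ^ (t - s))
      have := ee_BCx P a q s r
      rw [hUs] at this
      rw [mul_assoc]
      exact this
    have b2 : BC (2 * UU a q t) (sg (UU a q s)) := by
      apply BC.mono (2 ^ (t - s - 1))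
      have := sg_BC (UU a q s)
      rw [hUs, h2ts] at this
      rw [hUs, h2ts]
      convert this using 1
      ring
    exact ((b1.neg.mul b2).mul ((ee_BCx P a q t r).neg.mul (BC.const _ _))).mul (Ps_BCx P q ht r)
  have hcr : ∀ x, BC (2 * 2 ^ s) (fun r => c x r) := by
    intro x
    have h2 : 2 ^ t = 2 * 2 ^ s * 2 ^ (t - s - 1) := by
      rw [← pow_succ', ← pow_add]
      congr 1
      omega
    have b1 : BC (2 * 2 ^ s) (fun r => ee P a q t x r) := by
      apply BC.mono (2 * 2 ^ (t - s - 1))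
      have := ee_BCr P a q t x
      rw [h2] at this
      convert this using 1
      ring
    have b2 : BC (2 * 2 ^ s) (sg (2 ^ t)) := by
      apply BC.mono (2 ^ (t - s - 1))
      have := sg_BC (2 ^ t)
      rw [h2] at this
      rw [h2]
      exact this
    exact (((ee_BCr P a q s x).neg.mul (BC.const _ _)).mul (b1.neg.mul b2)).mul (Ps_BCr P q x)
  have hc0 : ∀ p ∈ P, ∀ x r, x / (2 * UU a q t) = p.1 / (2 * UU a q t) →
      r / (2 * 2 ^ s) = p.2 / (2 * 2 ^ s) → c x r = 0 := by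
    intro p hp x r h1 h2
    have h3 : r / (2 * 2 ^ t) = p.2 / (2 * 2 ^ t) := by
      have : 2 * 2 ^ t = 2 * 2 ^ s * 2 ^ (t - s) := by
        rw [mul_assoc, ← pow_add]; congr 2; omega
      have e3 : ∀ y, y / (2 * 2 ^ s * 2 ^ (t - s)) = y / (2 * 2 ^ s) / 2 ^ (t - s) :=
        fun y => (Nat.div_div_eq_div_mul _ _ _).symm
      rw [this, e3, e3, h2]
    simp only [hc]
    rw [ee_zero P a q t p hp x r h1 h3]
    ring
  have h := pairing P n (UU a q t) (2 ^ s) (2 ^ (t + 2)) (2 ^ (a - 1 - s)) (UU_pos hq) (by positivity)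
    c hcx hcr hc0
  rw [← e1, ← e2] at h
  have hpair : pair P n (2 ^ (a + 2) * q) (2 ^ a) (fun x r => ff P a q s x r * ff P a q t x r *
      Ps P a q s t x r) = ∑ x ∈ range (2 ^ (a + 2) * q), ∑ r ∈ range (2 ^ a),
        DD P n x r * (c x r * (sg (UU a q t) x * sg (2 ^ s) r)) := by
    unfold pair
    refine Finset.sum_congr rfl fun x _ => Finset.sum_congr rfl fun r _ => ?_
    simp only [hc]
    unfold ff
    ring
  rw [hpair, h]
  have hcb : ∀ x r, |c x r| ≤ (5 / 4) ^ (t - s - 1) := by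
    intro x r
    simp only [hc]
    rw [abs_mul, abs_mul, abs_mul, abs_mul, abs_sg, abs_sg, abs_neg, abs_neg, mul_one, mul_one,
      abs_of_nonneg (ee_nonneg _ _ _ _ _ _), abs_of_nonneg (ee_nonneg _ _ _ _ _ _)]
    have h1 : ee P a q s x r * ee P a q t x r ≤ 1 :=
      mul_le_one₀ (ee_le_one _ _ _ _ _ _) (ee_nonneg _ _ _ _ _ _) (ee_le_one _ _ _ _ _ _)
    calc ee P a q s x r * ee P a q t x r * |Ps P a q s t x r| ≤ 1 * (5 / 4) ^ (t - s - 1) :=
          mul_le_mul h1 (abs_Ps_le P a q s t x r) (abs_nonneg _) zero_le_one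
      _ = _ := one_mul _
  have hn0 : (0 : ℝ) < n := by exact_mod_cast hn
  have hUV : ((UU a q t : ℕ) : ℝ) * ((2 ^ s : ℕ) : ℝ) = 2 ^ (a - 1) * q * (1 / 2) ^ (t - s) := by
    have h1 : ((UU a q t : ℕ) : ℝ) * ((2 ^ t : ℕ) : ℝ) = 2 ^ (a - 1) * q := by
      have := UV_eq (q := q) ht
      exact_mod_cast this
    have h2 : ((2 ^ t : ℕ) : ℝ) = ((2 ^ s : ℕ) : ℝ) * 2 ^ (t - s) := by
      push_cast
      rw [← pow_add]; congr 1; omega
    rw [h2] at h1
    have h3 : (2 : ℝ) ^ (t - s) * (1 / 2) ^ (t - s) = 1 := by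
      rw [← mul_pow]; norm_num
    calc ((UU a q t : ℕ) : ℝ) * ((2 ^ s : ℕ) : ℝ) =
        ((UU a q t : ℕ) : ℝ) * ((2 ^ s : ℕ) : ℝ) * ((2 : ℝ) ^ (t - s) * (1 / 2) ^ (t - s)) := by
          rw [h3, mul_one]
      _ = ((UU a q t : ℕ) : ℝ) * (((2 ^ s : ℕ) : ℝ) * (2 : ℝ) ^ (t - s)) * (1 / 2) ^ (t - s) := by ring
      _ = _ := by rw [h1]
  rw [abs_mul, abs_neg, hUV]
  have hsum : |∑ x ∈ range (2 ^ (a + 2) * q), ∑ r ∈ range (2 ^ a), c x r| ≤
      ((2 ^ (a + 2) * q) * 2 ^ a : ℝ) * (5 / 4) ^ (t - s - 1) := by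
    calc |∑ x ∈ range (2 ^ (a + 2) * q), ∑ r ∈ range (2 ^ a), c x r|
        ≤ ∑ x ∈ range (2 ^ (a + 2) * q), |∑ r ∈ range (2 ^ a), c x r| :=
          Finset.abs_sum_le_sum_abs _ _
      _ ≤ ∑ x ∈ range (2 ^ (a + 2) * q), ∑ r ∈ range (2 ^ a), |c x r| :=
          Finset.sum_le_sum fun x _ => Finset.abs_sum_le_sum_abs _ _
      _ ≤ ∑ x ∈ range (2 ^ (a + 2) * q), ∑ r ∈ range (2 ^ a), ((5 : ℝ) / 4) ^ (t - s - 1) :=
          Finset.sum_le_sum fun x _ => Finset.sum_le_sum fun r _ => hcb x r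
      _ = _ := by
          simp only [Finset.sum_const, card_range, nsmul_eq_mul]
          push_cast
          ring
  have habs : |(2 ^ (a - 1) * q * (1 / 2) ^ (t - s) : ℝ) / (4 * n)| =
      (2 ^ (a - 1) * q * (1 / 2) ^ (t - s) : ℝ) / (4 * n) := abs_of_nonneg (by positivity)
  rw [habs]
  calc (2 ^ (a - 1) * q * (1 / 2) ^ (t - s) : ℝ) / (4 * n) *
      |∑ x ∈ range (2 ^ (a + 2) * q), ∑ r ∈ range (2 ^ a), c x r|
      ≤ (2 ^ (a - 1) * q * (1 / 2) ^ (t - s) : ℝ) / (4 * n) *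
        (((2 ^ (a + 2) * q) * 2 ^ a : ℝ) * (5 / 4) ^ (t - s - 1)) :=
        mul_le_mul_of_nonneg_left hsum (by positivity)
    _ = _ := by ring

theorem geo_sum (t : ℕ) : ∑ s ∈ range t, ((1 / 2 : ℝ) ^ (t - s) * (5 / 4) ^ (t - s - 1)) ≤ 4 / 3 := by
  have h1 : ∑ s ∈ range t, ((1 / 2 : ℝ) ^ (t - s) * (5 / 4) ^ (t - s - 1)) =
      ∑ i ∈ range t, (1 / 2 : ℝ) * (5 / 8) ^ i := by
    rw [← Finset.sum_range_reflect]
    refine Finset.sum_congr rfl fun s hs => ?_
    have hs' := mem_range.1 hs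
    have e : t - (t - 1 - s) = s + 1 := by omega
    rw [e, Nat.add_sub_cancel, pow_succ]
    calc (1 / 2 : ℝ) ^ s * (1 / 2) * (5 / 4) ^ s = 1 / 2 * ((1 / 2) ^ s * (5 / 4) ^ s) := by ring
      _ = _ := by rw [← mul_pow]; norm_num
  rw [h1, ← Finset.mul_sum, geom_sum_eq (by norm_num)]
  have : (0 : ℝ) ≤ (5 / 8) ^ t := by positivity
  have h2 : ((5 / 8 : ℝ) ^ t - 1) / (5 / 8 - 1) = (8 / 3) * (1 - (5 / 8) ^ t) := by
    norm_num
    ring
  rw [h2]
  linarith

/-- **the lower bound in `L¹(L^∞)`** -/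
theorem riesz (P : Finset (ℕ × ℕ)) (a q n : ℕ) (hq : 0 < q) (hn : 0 < n) (hP : P.card ≤ 2 ^ a)
    (S : ℕ → ℝ) (hS : ∀ x < 2 ^ (a + 2) * q, ∀ r < 2 ^ a, |DD P n x r| ≤ S x) :
    (a : ℝ) * (2 ^ (a + 2) * q : ℝ) ^ 2 / (1536 * n) ≤ ∑ x ∈ range (2 ^ (a + 2) * q), S x := by
  rcases Nat.eq_zero_or_pos a with ha | ha
  · subst ha
    simp only [Nat.cast_zero, zero_mul, zero_div]
    apply Finset.sum_nonneg
    intro x hx
    exact le_trans (abs_nonneg _) (hS x (mem_range.1 hx) 0 (by positivity))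
  have hn0 : (0 : ℝ) < n := by exact_mod_cast hn
  set X := 2 ^ (a + 2) * q with hX
  set G : ℝ := (2 ^ (a - 1) * q : ℝ) * ((2 ^ (a + 2) * q) * 2 ^ a) / (8 * n) with hG
  have hG0 : 0 ≤ G := by positivity
  -- lower bound of the pairing
  have hlow : (a : ℝ) * (G / 12) ≤ pair P n X (2 ^ a) (fun x r => Ph P a q a x r - 1) := by
    have h1 : pair P n X (2 ^ a) (fun x r => Ph P a q a x r - 1) =
        ∑ t ∈ range a, pair P n X (2 ^ a) (fun x r => ff P a q t x r / 4 * Ph P a q t x r) := by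
      simp only [Ph_tele]
      exact pair_sum _ _ _ _ _ _
    rw [h1]
    have h2 : ∀ t ∈ range a, G / 12 ≤
        pair P n X (2 ^ a) (fun x r => ff P a q t x r / 4 * Ph P a q t x r) := by
      intro t ht
      have ht' := mem_range.1 ht
      have h3 : (fun x r => ff P a q t x r / 4 * Ph P a q t x r) =
          (fun x r => (1 / 4) * (ff P a q t x r) +
            ∑ s ∈ range t, (1 / 16) * (ff P a q s x r * ff P a q t x r * Ps P a q s t x r)) := by
        funext x r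
        rw [Ph_expand, mul_add, Finset.mul_sum]
        congr 1
        · ring
        · refine Finset.sum_congr rfl fun s _ => ?_
          ring
      rw [h3, pair_add, pair_smul, pair_sum]
      have h4 := pair_ff P a q n t ht' hq hn hP
      have h5 : |∑ s ∈ range t, pair P n X (2 ^ a)
          (fun x r => (1 / 16) * (ff P a q s x r * ff P a q t x r * Ps P a q s t x r))| ≤
          (1 / 8) * G * (4 / 3) := by
        refine (Finset.abs_sum_le_sum_abs _ _).trans ?_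
        have h50 : ∀ s ∈ range t, |pair P n X (2 ^ a)
            (fun x r => (1 / 16) * (ff P a q s x r * ff P a q t x r * Ps P a q s t x r))| ≤
            (1 / 8) * G * ((1 / 2) ^ (t - s) * (5 / 4) ^ (t - s - 1)) := by
          intro s hs
          have hs' := mem_range.1 hs
          rw [pair_smul, abs_mul]
          have h6 := pair_ff_Ps P a q n s t hs' ht' hq hn
          have h7 : |(1 / 16 : ℝ)| = 1 / 16 := by norm_num
          rw [h7]
          have h8 := mul_le_mul_of_nonneg_left h6 (by norm_num : (0 : ℝ) ≤ 1 / 16)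
          refine h8.trans (le_of_eq ?_)
          rw [hG]
          field_simp
          ring
        refine (Finset.sum_le_sum h50).trans ?_
        calc ∑ s ∈ range t, (1 / 8) * G * ((1 / 2) ^ (t - s) * (5 / 4) ^ (t - s - 1))
            = (1 / 8) * G * ∑ s ∈ range t, ((1 / 2) ^ (t - s) * (5 / 4) ^ (t - s - 1)) := by
              rw [Finset.mul_sum]
          _ ≤ (1 / 8) * G * (4 / 3) := mul_le_mul_of_nonneg_left (geo_sum t) (by positivity)
      have h9 := (abs_le.1 h5).1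
      have h10 : G ≤ pair P n X (2 ^ a) (fun x r => ff P a q t x r) := h4
      linarith
    calc (a : ℝ) * (G / 12) = ∑ t ∈ range a, G / 12 := by
          rw [Finset.sum_const, card_range, nsmul_eq_mul]
      _ ≤ _ := Finset.sum_le_sum h2
  -- upper bound
  have hup : pair P n X (2 ^ a) (fun x r => Ph P a q a x r - 1) ≤
      ∑ x ∈ range X, S x * (2 * 2 ^ a) := by
    unfold pair
    refine Finset.sum_le_sum fun x hx => ?_
    have hx' := mem_range.1 hx
    have hSx : 0 ≤ S x := le_trans (abs_nonneg _) (hS x hx' 0 (by positivity))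
    calc ∑ r ∈ range (2 ^ a), DD P n x r * (Ph P a q a x r - 1)
        ≤ ∑ r ∈ range (2 ^ a), S x * (Ph P a q a x r + 1) := by
          refine Finset.sum_le_sum fun r hr => ?_
          have h1 := hS x hx' r (mem_range.1 hr)
          have h2 := Ph_pos P a q a x r
          have h3 : |Ph P a q a x r - 1| ≤ Ph P a q a x r + 1 := by
            rw [abs_le]; constructor <;> linarith
          calc DD P n x r * (Ph P a q a x r - 1) ≤ |DD P n x r * (Ph P a q a x r - 1)| := le_abs_self _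
            _ = |DD P n x r| * |Ph P a q a x r - 1| := abs_mul _ _
            _ ≤ S x * (Ph P a q a x r + 1) := mul_le_mul h1 h3 (abs_nonneg _) hSx
      _ = S x * (∑ r ∈ range (2 ^ a), Ph P a q a x r + 2 ^ a) := by
          rw [← Finset.mul_sum, Finset.sum_add_distrib, Finset.sum_const, card_range, nsmul_eq_mul,
            mul_one]
          push_cast
          rfl
      _ = S x * (2 * 2 ^ a) := by
          rw [sum_Ph P q x]
          ring
  rw [← Finset.sum_mul] at hup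
  have hfin := hlow.trans hup
  have h2a : (0 : ℝ) < 2 * 2 ^ a := by positivity
  rw [← div_le_iff₀ h2a] at hfin
  refine le_trans (le_of_eq ?_) hfin
  rw [hG]
  have h6 : (2 : ℝ) ^ (a + 2) = 8 * 2 ^ (a - 1) := by
    have : a + 2 = (a - 1) + 3 := by omega
    rw [this, pow_add]
    norm_num
    ring
  rw [h6]
  field_simp
  ring

end Pool.Agent.H64.SD
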