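import Pool.Agent.H64.SD.Prog
import Pool.Agent.H64.SD.Quasi
import Pool.Agent.H64.SD.Riesz3

set_option autoImplicit false
set_option linter.unusedSectionVars false

/-!
# Programs of bounded width: some box has many points
-/

namespace Pool.Agent.H64.SD

open Finset

/-- number of `i < x` with `lam i` among the first `r` elements of the `c`-th interval of
length `M` -/
def cnt {m : ℕ} (lam : Fin m → ℕ) (M c r x : ℕ) : ℕ :=
  (univ.filter (fun i : Fin m => i.val < x ∧ lam i / M = c ∧ lam i % M < r)).card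

section lam
variable {d m T : ℕ}

/-- the digits `i < a j` of the coordinates `j` -/
def Spre (a : Fin d → ℕ) : Finset (Fin d × Fin m) := univ.filter (fun i => i.2.val < a i.1)

theorem card_prod_filter (p : Fin d × Fin m → Prop) [DecidablePred p] :
    (univ.filter p).card = ∑ j : Fin d, (univ.filter (fun q : Fin m => p (j, q))).card := by
  simp only [Finset.card_filter]
  exact Fintype.sum_prod_type _

/-- number of digits `q < x` of coordinate `j` in the piece `k` -/
def gg {B : ℕ} (κ : Fin d × Fin m → Fin B) (j : Fin d) (k : Fin B) (x : ℕ) : ℕ :=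
  (univ.filter (fun q : Fin m => q.val < x ∧ κ (j, q) = k)).card

theorem gg_zero {B : ℕ} (κ : Fin d × Fin m → Fin B) (j : Fin d) (k : Fin B) : gg κ j k 0 = 0 := by
  unfold gg
  simp

theorem card_Spre_inter {B : ℕ} (κ : Fin d × Fin m → Fin B) (a : Fin d → ℕ) (k : Fin B) :
    (Spre a ∩ pc κ k).card = ∑ j, gg κ j k (a j) := by
  have : Spre a ∩ pc κ k = univ.filter (fun i : Fin d × Fin m => i.2.val < a i.1 ∧ κ i = k) := by
    ext i
    simp [Spre, pc]
  rw [this, card_prod_filter]
  rfl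

theorem card_lt (x : ℕ) (hx : x ≤ m) : (univ.filter (fun q : Fin m => q.val < x)).card = x := by
  have h1 : (univ.filter (fun q : Fin m => q.val < x)).image (fun q => q.val) = range x := by
    ext v
    simp only [Finset.mem_image, Finset.mem_filter, Finset.mem_univ, true_and, Finset.mem_range]
    constructor
    · rintro ⟨q, hq, rfl⟩; exact hq
    · intro hv; exact ⟨⟨v, by omega⟩, hv, rfl⟩
  rw [← Finset.card_image_of_injective _ (Fin.val_injective), h1, card_range]

theorem card_Spre (a : Fin d → ℕ) (ha : ∀ j, a j ≤ m) : (Spre (m := m) a).card = ∑ j, a j := by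
  unfold Spre
  rw [card_prod_filter]
  exact Finset.sum_congr rfl fun j _ => card_lt _ (ha j)

/-- three prefix lengths -/
def tri (e x1 x2 x3 : ℕ) : Fin (e + 3) → ℕ :=
  Fin.cons x1 (Fin.cons x2 (Fin.cons x3 (fun _ => 0)))

theorem sum_tri (e x1 x2 x3 : ℕ) (φ : Fin (e + 3) → ℕ → ℕ) (h0 : ∀ j, φ j 0 = 0) :
    ∑ j, φ j (tri e x1 x2 x3 j) = φ 0 x1 + (φ 1 x2 + φ 2 x3) := by
  rw [Fin.sum_univ_succ, Fin.sum_univ_succ, Fin.sum_univ_succ]
  have : ∑ i : Fin e, φ i.succ.succ.succ (tri e x1 x2 x3 i.succ.succ.succ) = 0 := by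
    apply Finset.sum_eq_zero
    intro i _
    simp only [tri, Fin.cons_succ]
    exact h0 _
  rw [this, add_zero]
  rfl

/-- rank in time among the first `n` digits of coordinate `0` -/
def lam (ord : Fin T ≃ Fin (d + 1) × Fin m) (n : ℕ) (i : Fin (d + 1) × Fin m) : ℕ :=
  (univ.filter (fun p : Fin m => p.val < n ∧ ord.symm (0, p) < ord.symm i)).card

theorem lam_mono (ord : Fin T ≃ Fin (d + 1) × Fin m) (n : ℕ) (i j : Fin (d + 1) × Fin m)
    (h : ord.symm i ≤ ord.symm j) : lam ord n i ≤ lam ord n j := by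
  apply Finset.card_le_card
  intro p hp
  simp only [Finset.mem_filter, Finset.mem_univ, true_and] at hp ⊢
  exact ⟨hp.1, lt_of_lt_of_le hp.2 h⟩

theorem lam_le (ord : Fin T ≃ Fin (d + 1) × Fin m) (n : ℕ) (hn : n ≤ m) (i : Fin (d + 1) × Fin m) :
    lam ord n i ≤ n := by
  conv_rhs => rw [← card_lt n hn]
  apply Finset.card_le_card
  intro p hp
  simp only [Finset.mem_filter, Finset.mem_univ, true_and] at hp ⊢
  exact hp.1

theorem lam_strict (ord : Fin T ≃ Fin (d + 1) × Fin m) (n : ℕ) (p : Fin m) (hp : p.val < n)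
    (j : Fin (d + 1) × Fin m) (h : ord.symm (0, p) < ord.symm j) :
    lam ord n (0, p) < lam ord n j := by
  apply Finset.card_lt_card
  rw [Finset.ssubset_iff_of_subset]
  · refine ⟨p, ?_, ?_⟩
    · simp [hp, h]
    · simp
  · intro q hq
    simp only [Finset.mem_filter, Finset.mem_univ, true_and] at hq ⊢
    exact ⟨hq.1, lt_trans hq.2 h⟩

theorem lam_inj (ord : Fin T ≃ Fin (d + 1) × Fin m) (n : ℕ) (p q : Fin m) (hp : p.val < n)
    (hq : q.val < n) (h : lam ord n (0, p) = lam ord n (0, q)) : p = q := by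
  by_contra hne
  rcases lt_trichotomy (ord.symm (0, p)) (ord.symm (0, q)) with h1 | h1 | h1
  · have := lam_strict ord n p hp (0, q) h1
    omega
  · have := ord.symm.injective h1
    exact hne (Prod.mk.inj this).2
  · have := lam_strict ord n q hq (0, p) h1
    omega

theorem lam_lt (ord : Fin T ≃ Fin (d + 1) × Fin m) (n : ℕ) (hn : n ≤ m) (p : Fin m)
    (hp : p.val < n) : lam ord n (0, p) < n := by
  conv_rhs => rw [← card_lt n hn]
  apply Finset.card_lt_card
  rw [Finset.ssubset_iff_of_subset]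
  · exact ⟨p, by simp [hp], by simp⟩
  · intro q hq
    simp only [Finset.mem_filter, Finset.mem_univ, true_and] at hq ⊢
    exact hq.1

theorem lam_image (ord : Fin T ≃ Fin (d + 1) × Fin m) (n : ℕ) (hn : n ≤ m) :
    (univ.filter (fun p : Fin m => p.val < n)).image (fun p => lam ord n (0, p)) = range n := by
  apply Finset.eq_of_subset_of_card_le
  · intro v hv
    obtain ⟨p, hp, rfl⟩ := Finset.mem_image.1 hv
    rw [mem_range]
    exact lam_lt ord n hn p (Finset.mem_filter.1 hp).2
  · rw [card_range, Finset.card_image_of_injOn, card_lt n hn]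
    intro p hp q hq h
    exact lam_inj ord n p q (Finset.mem_filter.1 (Finset.mem_coe.1 hp)).2
      (Finset.mem_filter.1 (Finset.mem_coe.1 hq)).2 h

theorem cnt_full (ord : Fin T ≃ Fin (d + 1) × Fin m) (n : ℕ) (hn : n ≤ m) (M c r : ℕ) (hM : 0 < M)
    (hc : c < n / M) (hr : r ≤ M) : cnt (fun p => lam ord n (0, p)) M c r n = r := by
  unfold cnt
  have hcM : (c + 1) * M ≤ n := by
    calc (c + 1) * M ≤ (n / M) * M := Nat.mul_le_mul_right _ hc
      _ ≤ n := Nat.div_mul_le_self n M
  have h1 : (univ.filter (fun i : Fin m => i.val < n ∧ lam ord n (0, i) / M = c ∧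
      lam ord n (0, i) % M < r)).image (fun p => lam ord n (0, p)) = Finset.Ico (c * M) (c * M + r) := by
    ext v
    simp only [Finset.mem_image, Finset.mem_filter, Finset.mem_univ, true_and, Finset.mem_Ico]
    constructor
    · rintro ⟨p, ⟨_, h2, h3⟩, rfl⟩
      have h4 := Nat.div_add_mod (lam ord n (0, p)) M
      rw [h2, Nat.mul_comm] at h4
      omega
    · rintro ⟨h2, h3⟩
      have hvn : v < n := by
        have : c * M + r ≤ (c + 1) * M := by rw [Nat.add_mul, Nat.one_mul]; omega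
        omega
      have : v ∈ (univ.filter (fun p : Fin m => p.val < n)).image (fun p => lam ord n (0, p)) := by
        rw [lam_image ord n hn]; exact mem_range.2 hvn
      obtain ⟨p, hp, hpv⟩ := Finset.mem_image.1 this
      refine ⟨p, ⟨(Finset.mem_filter.1 hp).2, ?_, ?_⟩, hpv⟩
      · rw [hpv, Nat.div_eq_iff hM]
        constructor
        · exact h2
        · rw [Nat.mul_comm] at *
          omega
      · rw [hpv]
        have h5 : v = c * M + (v - c * M) := by omega
        rw [h5, Nat.mul_add_mod', Nat.mod_eq_of_lt (by omega)]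
        omega
  have h2 : (univ.filter (fun i : Fin m => i.val < n ∧ lam ord n (0, i) / M = c ∧
      lam ord n (0, i) % M < r)).card = (Finset.Ico (c * M) (c * M + r)).card := by
    rw [← h1, Finset.card_image_of_injOn]
    intro p hp q hq h
    exact lam_inj ord n p q (Finset.mem_filter.1 (Finset.mem_coe.1 hp)).2.1
      (Finset.mem_filter.1 (Finset.mem_coe.1 hq)).2.1 h
  rw [h2, Nat.card_Ico]
  omega

/-- the pieces -/
def kap (ord : Fin T ≃ Fin (d + 1) × Fin m) (n M : ℕ) (r : ℕ → ℕ) (hn : n ≤ m)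
    (i : Fin (d + 1) × Fin m) : Fin (2 * (n / M) + 2) :=
  ⟨2 * (lam ord n i / M) + if lam ord n i % M < r (lam ord n i / M) then 0 else 1, by
    have h1 : lam ord n i / M ≤ n / M := Nat.div_le_div_right (lam_le ord n hn i)
    split_ifs <;> omega⟩

theorem kap_mono (ord : Fin T ≃ Fin (d + 1) × Fin m) (n M : ℕ) (r : ℕ → ℕ) (hn : n ≤ m)
    (i j : Fin (d + 1) × Fin m) (h : ord.symm i ≤ ord.symm j) :
    kap ord n M r hn i ≤ kap ord n M r hn j := by
  have h1 := lam_mono ord n i j h
  rw [Fin.le_def]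
  show 2 * (lam ord n i / M) + _ ≤ 2 * (lam ord n j / M) + _
  have h2 : lam ord n i / M ≤ lam ord n j / M := Nat.div_le_div_right h1
  rcases Nat.lt_or_ge (lam ord n i / M) (lam ord n j / M) with h3 | h3
  · split_ifs <;> omega
  · have h4 : lam ord n i / M = lam ord n j / M := le_antisymm h2 h3
    have h5 := Nat.div_add_mod (lam ord n i) M
    have h6 := Nat.div_add_mod (lam ord n j) M
    rw [h4] at h5 ⊢
    have h7 : lam ord n i % M ≤ lam ord n j % M := by omega
    split_ifs <;> omega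

theorem gg_kap (ord : Fin T ≃ Fin (d + 1) × Fin m) (n M : ℕ) (r : ℕ → ℕ) (hn : n ≤ m) (c : ℕ)
    (hc : 2 * c < 2 * (n / M) + 2) (x : ℕ) :
    gg (kap ord n M r hn) 0 ⟨2 * c, hc⟩ x = cnt (fun p => lam ord n (0, p)) M c (r c) x := by
  unfold gg cnt
  congr 1
  ext q
  simp only [Finset.mem_filter, Finset.mem_univ, true_and]
  apply and_congr_right
  intro _
  rw [Fin.ext_iff]
  show 2 * (lam ord n (0, q) / M) + _ = 2 * c ↔ _
  constructor
  · intro h
    by_cases h2 : lam ord n (0, q) % M < r (lam ord n (0, q) / M)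
    · rw [if_pos h2] at h
      have h3 : lam ord n (0, q) / M = c := by omega
      rw [h3] at h2
      exact ⟨h3, h2⟩
    · rw [if_neg h2] at h
      omega
  · rintro ⟨h1, h2⟩
    rw [h1, if_pos h2]
    omega

end lam

theorem almost_linear {e m w b T : ℕ} (hb : 2 ≤ b) (hw : 0 < w)
    (ord : Fin T ≃ Fin (e + 3) × Fin m)
    (A : Finset (Fin (e + 3) × Fin m → Fin b)) (hA : Width ord w A) (n : ℕ) (hn : n ≤ m) (hn0 : 0 < n)
    (hnA : b ^ n ≤ A.card) (M : ℕ) (hM : 0 < M) (β : ℕ) (z : Fin b)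
    (hβ : ∀ a : Fin (e + 3) → ℕ, ∑ j, a j = n → ∀ u,
      (A.filter (fun f => mask z (Spre a) f = u)).card ≤ β) (r : ℕ → ℕ) (hr : ∀ c, r c ≤ M) (x : ℕ)
    (hx : x ≤ n) :
    ∑ c ∈ range (n / M), |(cnt (fun p => lam ord n (0, p)) M c (r c) x : ℝ) - (x : ℝ) / n * r c| ≤
      4 * ((2 * Real.log ((w : ℝ) ^ (2 * (n / M) + 2)) + 4 * Real.log β) / Real.log b) := by
  classical
  set B := 2 * (n / M) + 2 with hB
  set κ := kap ord n M r hn with hκ
  have hAne : A.Nonempty := by
    rw [← Finset.card_pos]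
    exact lt_of_lt_of_le (by positivity) hnA
  obtain ⟨P, hPA, hPne, hPR, hPc⟩ := hA B κ (by omega)
    (fun i j h => kap_mono ord n M r hn i j h)
  set Θ : ℝ := (2 * Real.log ((w : ℝ) ^ B) + 4 * Real.log β) / Real.log b with hΘ
  have hW : (0 : ℝ) < (w : ℝ) ^ B := by positivity
  have hbal : ∀ x1 x2 x3 y1 y2 y3 : ℕ, x1 + (x2 + x3) = n → y1 + (y2 + y3) = n →
      ∑ k, |((gg κ 0 k x1 : ℝ) + (gg κ 1 k x2 + gg κ 2 k x3)) -
        (gg κ 0 k y1 + (gg κ 1 k y2 + gg κ 2 k y3))| ≤ Θ := by
    intro x1 x2 x3 y1 y2 y3 hx hy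
    have hcardS : ∀ u1 u2 u3 : ℕ, u1 + (u2 + u3) = n →
        (Spre (m := m) (tri e u1 u2 u3)).card = n := by
      intro u1 u2 u3 hu
      rw [card_Spre]
      · rw [sum_tri e u1 u2 u3 (fun _ v => v) (fun _ => rfl)]
        exact hu
      · intro j
        refine le_trans ?_ hn
        rw [← hu, ← sum_tri e u1 u2 u3 (fun _ v => v) (fun _ => rfl)]
        exact Finset.single_le_sum (f := fun j => tri e u1 u2 u3 j) (fun _ _ => Nat.zero_le _)
          (Finset.mem_univ j)
    have hfib : ∀ u1 u2 u3 : ℕ, u1 + (u2 + u3) = n → ∀ u,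
        (P.filter (fun f => mask z (Spre (tri e u1 u2 u3)) f = u)).card ≤ β := by
      intro u1 u2 u3 hu u
      refine le_trans (Finset.card_le_card ?_) (hβ (tri e u1 u2 u3) ?_ u)
      · exact Finset.filter_subset_filter _ hPA
      · rw [sum_tri e u1 u2 u3 (fun _ v => v) (fun _ => rfl)]
        exact hu
    have hN : ∀ u1 u2 u3 : ℕ, u1 + (u2 + u3) = n →
        (Fintype.card (Fin b) : ℝ) ^ (Spre (m := m) (tri e u1 u2 u3)).card ≤
          (w : ℝ) ^ B * P.card := by
      intro u1 u2 u3 hu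
      rw [hcardS u1 u2 u3 hu, Fintype.card_fin]
      exact_mod_cast hnA.trans hPc
    have h := balance_two z κ P hPR hPne (by rw [Fintype.card_fin]; exact hb)
      (Spre (tri e x1 x2 x3)) (Spre (tri e y1 y2 y3)) β (hfib x1 x2 x3 hx) (hfib y1 y2 y3 hy)
      ((w : ℝ) ^ B) hW (hN x1 x2 x3 hx) (hN y1 y2 y3 hy)
    rw [Fintype.card_fin] at h
    refine le_trans (le_of_eq ?_) h
    refine Finset.sum_congr rfl fun k _ => ?_
    rw [card_Spre_inter, card_Spre_inter, sum_tri e x1 x2 x3 (fun j v => gg κ j k v) (fun j => gg_zero κ j k),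
      sum_tri e y1 y2 y3 (fun j v => gg κ j k v) (fun j => gg_zero κ j k)]
    push_cast
    rfl
  have hadd : ∀ x h, x + h ≤ n → ∑ k, |(gg κ 0 k (x + h) : ℝ) - gg κ 0 k x - gg κ 1 k h| ≤ Θ := by
    intro x h hxh
    have h1 := hbal (x + h) 0 (n - x - h) x h (n - x - h) (by omega) (by omega)
    refine le_trans (le_of_eq ?_) h1
    refine Finset.sum_congr rfl fun k _ => ?_
    rw [gg_zero]
    congr 1
    push_cast
    ring
  have hadd2 : ∀ x h, x + h ≤ n →
      ∑ k, |(gg κ 0 k (x + h) : ℝ) - gg κ 0 k x - gg κ 0 k h| ≤ 2 * Θ := by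
    intro x h hxh
    have h1 := hadd x h hxh
    have h2 := hadd 0 h (by omega)
    calc ∑ k, |(gg κ 0 k (x + h) : ℝ) - gg κ 0 k x - gg κ 0 k h|
        ≤ ∑ k, (|(gg κ 0 k (x + h) : ℝ) - gg κ 0 k x - gg κ 1 k h| +
            |(gg κ 0 k (0 + h) : ℝ) - gg κ 0 k 0 - gg κ 1 k h|) := by
          refine Finset.sum_le_sum fun k _ => ?_
          rw [gg_zero, Nat.zero_add]
          have : (gg κ 0 k (x + h) : ℝ) - gg κ 0 k x - gg κ 0 k h =
            ((gg κ 0 k (x + h) : ℝ) - gg κ 0 k x - gg κ 1 k h) -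
            ((gg κ 0 k h : ℝ) - (0 : ℕ) - gg κ 1 k h) := by push_cast; ring
          rw [this]
          exact abs_sub _ _
      _ ≤ Θ + Θ := by
          rw [Finset.sum_add_distrib]
          exact add_le_add h1 h2
      _ = 2 * Θ := by ring
  have hq := quasi_linear univ (fun x k => (gg κ 0 k x : ℝ)) (fun k => by
    show (gg κ 0 k 0 : ℝ) = 0
    rw [gg_zero]; norm_num) n (2 * Θ) hadd2 x hx
  have hn0' : (0 : ℝ) < n := by exact_mod_cast hn0
  -- restrict to the even pieces
  have hres : ∑ c ∈ range (n / M), |(n : ℝ) * cnt (fun p => lam ord n (0, p)) M c (r c) x - x * r c| ≤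
      ∑ k, |(n : ℝ) * gg κ 0 k x - x * gg κ 0 k n| := by
    have hlt : ∀ c ∈ range (n / M), 2 * c < B := by
      intro c hc
      have := mem_range.1 hc
      omega
    let emb : {c // c ∈ range (n / M)} → Fin B := fun c => ⟨2 * c.1, hlt c.1 c.2⟩
    have hemb : Function.Injective emb := by
      intro c c' h
      have h1 : 2 * c.1 = 2 * c'.1 := congrArg Fin.val h
      exact Subtype.ext (by omega)
    rw [← Finset.sum_attach]
    calc ∑ c ∈ (range (n / M)).attach, |(n : ℝ) * cnt (fun p => lam ord n (0, p)) M c.1 (r c.1) x - x * r c.1|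
        = ∑ c ∈ (range (n / M)).attach, |(n : ℝ) * gg κ 0 (emb c) x - x * gg κ 0 (emb c) n| := by
          refine Finset.sum_congr rfl fun c _ => ?_
          simp only [emb]
          rw [gg_kap, gg_kap, cnt_full ord n hn M c.1 (r c.1) hM (mem_range.1 c.2) (hr c.1)]
      _ = ∑ k ∈ ((range (n / M)).attach).image emb, |(n : ℝ) * gg κ 0 k x - x * gg κ 0 k n| := by
          rw [Finset.sum_image (fun a _ b _ h => hemb h)]
      _ ≤ _ := Finset.sum_le_sum_of_subset_of_nonneg (Finset.subset_univ _)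
          (fun _ _ _ => abs_nonneg _)
  have hfin : ∑ c ∈ range (n / M), |(n : ℝ) * cnt (fun p => lam ord n (0, p)) M c (r c) x - x * r c| ≤
      n * (4 * Θ) := by
    refine hres.trans (hq.trans (le_of_eq ?_))
    ring
  have hsc : ∀ c, |(cnt (fun p => lam ord n (0, p)) M c (r c) x : ℝ) - (x : ℝ) / n * r c| =
      |(n : ℝ) * cnt (fun p => lam ord n (0, p)) M c (r c) x - x * r c| / n := by
    intro c
    rw [eq_div_iff hn0'.ne', ← abs_of_pos hn0', ← abs_mul, abs_of_pos hn0']
    congr 1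
    field_simp
  simp only [hsc]
  rw [← Finset.sum_div, div_le_iff₀ hn0']
  linarith

end Pool.Agent.H64.SD
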