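import Pool.Agent.H64.SD.Star

set_option autoImplicit false
set_option linter.unusedSectionVars false

/-!
# The lower bound for programs of bounded width
-/

namespace Pool.Agent.H64.SD

open Finset MeasureTheory

theorem core (e m w b T : ℕ) (hb : 2 ≤ b) (hw : 0 < w) (ord : Fin T ≃ Fin (e + 3) × Fin m)
    (A : Finset (Fin (e + 3) × Fin m → Fin b))
    (hA : Width ord w A) (n : ℕ) (hn : n ≤ m)
    (hnA : b ^ n ≤ A.card) (a : ℕ)
    (ha : 3072 * (Real.log b + 32 * Real.log w) ≤ a * Real.log b)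
    (β : ℕ) (hβ1 : 1 ≤ β) (z : Fin b)
    (hβ : ∀ a : Fin (e + 3) → ℕ, ∑ j, a j = n → ∀ u,
      (A.filter (fun f => mask z (Spre a) f = u)).card ≤ β) :
    ((n / (4 * 2 ^ a) : ℕ) : ℝ) * Real.log b ≤ 16 * Real.log β := by
  classical
  have hlogβ : 0 ≤ Real.log β := Real.log_nonneg (by exact_mod_cast hβ1)
  rcases Nat.lt_or_ge n (4 * 2 ^ a) with hnM | hnM
  · rw [Nat.div_eq_of_lt hnM]
    simp only [Nat.cast_zero, zero_mul]
    positivity
  set M := 2 ^ a with hM
  have hM0 : 0 < M := by positivity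
  have hn0 : 0 < n := by omega
  have hlogw : 0 ≤ Real.log w := Real.log_nonneg (by exact_mod_cast hw)
  have hlogb0 : 0 < Real.log b := Real.log_pos (by exact_mod_cast (by omega : 1 < b))
  set C := n / M with hC
  have hC1 : 1 ≤ C := (Nat.one_le_div_iff hM0).2 (by omega)
  have hC1' : (1 : ℝ) ≤ C := by exact_mod_cast hC1
  set q := n / (4 * M) with hq
  have hq0 : 0 < q := Nat.div_pos hnM (by omega)
  set X := 2 ^ (a + 2) * q with hX
  have hX4 : X = 4 * M * q := by rw [hX, hM, pow_add]; ring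
  have hXn : X ≤ n := by
    rw [hX4, hq]; exact Nat.mul_div_le n (4 * M)
  have hXn2 : n ≤ 2 * X := by
    have h1 := Nat.div_add_mod n (4 * M)
    have h2 := Nat.mod_lt n (by omega : 0 < 4 * M)
    rw [← hq] at h1
    have h3 : 4 * M * 1 ≤ 4 * M * q := Nat.mul_le_mul_left _ hq0
    rw [hX4]
    omega
  have hX0 : 0 < X := by omega
  set lm : Fin m → ℕ := fun p => lam ord n (0, p) with hlm
  -- the point sets
  let Tc : ℕ → Finset (Fin m) := fun c => univ.filter (fun i : Fin m => i.val < n ∧ lm i / M = c)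
  let P : ℕ → Finset (ℕ × ℕ) := fun c => (Tc c).image (fun i => (i.val, lm i % M))
  have hPcard : ∀ c, (P c).card ≤ 2 ^ a := by
    intro c
    refine le_trans Finset.card_image_le ?_
    have h1 : (Tc c).card ≤ (Finset.Ico (c * M) (c * M + M)).card := by
      refine Finset.card_le_card_of_injOn lm ?_ ?_
      · intro i hi
        have hi' := (Finset.mem_filter.1 (Finset.mem_coe.1 hi)).2
        rw [Finset.mem_coe, Finset.mem_Ico]
        have h2 := Nat.div_add_mod (lm i) M
        have h3 := Nat.mod_lt (lm i) hM0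
        rw [hi'.2, Nat.mul_comm] at h2
        omega
      · intro i hi j hj hij
        have hi' := (Finset.mem_filter.1 (Finset.mem_coe.1 hi)).2
        have hj' := (Finset.mem_filter.1 (Finset.mem_coe.1 hj)).2
        exact lam_inj ord n i j hi'.1 hj'.1 hij
    rw [Nat.card_Ico] at h1
    omega
  have hDD : ∀ c x r, x ≤ n → DD (P c) n x r = (cnt lm M c r x : ℝ) - (x : ℝ) / n * r := by
    intro c x r hx
    unfold DD
    congr 1
    have hinj : Set.InjOn (fun i : Fin m => (i.val, lm i % M)) (Tc c : Set (Fin m)) := by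
      intro i _ j _ h
      exact Fin.ext (Prod.mk.inj h).1
    rw [Finset.sum_image hinj]
    unfold cnt
    rw [Finset.card_filter]
    push_cast
    simp only [Tc]
    rw [Finset.sum_filter]
    refine Finset.sum_congr rfl fun i _ => ?_
    by_cases h1 : i.val < x
    · have h0 : i.val < n := by omega
      by_cases h2 : lm i / M = c <;> by_cases h3 : lm i % M < r <;> simp [h0, h1, h2, h3]
    · simp [h1]
  -- the best row in each chunk
  have hbest : ∀ c x, ∃ r ∈ range (2 ^ a), ∀ r' ∈ range (2 ^ a),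
      |DD (P c) n x r'| ≤ |DD (P c) n x r| := fun c x =>
    Finset.exists_max_image (range (2 ^ a)) (fun r => |DD (P c) n x r|)
      ⟨0, mem_range.2 (by positivity)⟩
  choose rr hrr1 hrr2 using hbest
  set E : ℝ := 4 * ((2 * Real.log ((w : ℝ) ^ (2 * (n / M) + 2)) + 4 * Real.log β) / Real.log b)
    with hE
  have hEb : ∀ x < X, ∑ c ∈ range C, |DD (P c) n x (rr c x)| ≤ E := by
    intro x hx
    have h := almost_linear hb hw ord A hA n hn hn0 hnA M hM0 β z hβ (fun c => rr c x)
      (fun c => (mem_range.1 (hrr1 c x)).le) x (by omega)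
    refine le_trans (le_of_eq ?_) h
    refine Finset.sum_congr rfl fun c _ => ?_
    rw [hDD c x (rr c x) (by omega)]
  have hlow : ∀ c, (a : ℝ) * (2 ^ (a + 2) * q : ℝ) ^ 2 / (1536 * n) ≤
      ∑ x ∈ range X, |DD (P c) n x (rr c x)| := fun c =>
    riesz (P c) a q n hq0 hn0 (hPcard c) (fun x => |DD (P c) n x (rr c x)|)
      (fun x _ r hr => hrr2 c x r (mem_range.2 hr))
  have hXr : (2 ^ (a + 2) * q : ℝ) = X := by rw [hX]; push_cast; ring
  rw [hXr] at hlow
  have hn0' : (0 : ℝ) < n := by exact_mod_cast hn0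
  have hX0' : (0 : ℝ) < X := by exact_mod_cast hX0
  have hXn2' : (n : ℝ) ≤ 2 * X := by exact_mod_cast hXn2
  have hsum : (C : ℝ) * ((a : ℝ) * (X : ℝ) ^ 2 / (1536 * n)) ≤ X * E := by
    calc (C : ℝ) * ((a : ℝ) * (X : ℝ) ^ 2 / (1536 * n)) =
        ∑ c ∈ range C, (a : ℝ) * (X : ℝ) ^ 2 / (1536 * n) := by
          rw [Finset.sum_const, card_range, nsmul_eq_mul]
      _ ≤ ∑ c ∈ range C, ∑ x ∈ range X, |DD (P c) n x (rr c x)| :=
          Finset.sum_le_sum fun c _ => hlow c
      _ = ∑ x ∈ range X, ∑ c ∈ range C, |DD (P c) n x (rr c x)| := Finset.sum_comm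
      _ ≤ ∑ x ∈ range X, E := Finset.sum_le_sum fun x hx => hEb x (mem_range.1 hx)
      _ = X * E := by rw [Finset.sum_const, card_range, nsmul_eq_mul]
  have hE2 : (C : ℝ) * a / 3072 ≤ E := by
    have h1 : (C : ℝ) * a * X ≤ E * (1536 * n) := by
      have h2 : (C : ℝ) * ((a : ℝ) * (X : ℝ) ^ 2 / (1536 * n)) * (1536 * n) =
          X * ((C : ℝ) * a * X) := by
        field_simp
      have h3 := mul_le_mul_of_nonneg_right hsum (by positivity : (0 : ℝ) ≤ 1536 * n)
      rw [h2] at h3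
      have h4 : X * ((C : ℝ) * a * X) ≤ X * (E * (1536 * n)) := by linarith
      exact le_of_mul_le_mul_left h4 hX0'
    have hE0 : 0 ≤ E := by
      by_contra hcon
      push Not at hcon
      have h5 : E * (1536 * n) < 0 := mul_neg_of_neg_of_pos hcon (by positivity)
      have h6 : (0 : ℝ) ≤ (C : ℝ) * a * X := by positivity
      linarith
    have h7 : E * (1536 * n) ≤ E * (1536 * (2 * X)) :=
      mul_le_mul_of_nonneg_left (by linarith) hE0
    have h8 : (C : ℝ) * a * X ≤ (E * 3072) * X := by linarith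
    have h9 := le_of_mul_le_mul_right h8 hX0'
    rw [div_le_iff₀ (by norm_num)]
    exact h9
  have hE3 : E * Real.log b = 4 * (2 * ((2 * (C : ℝ) + 2) * Real.log w) + 4 * Real.log β) := by
    rw [hE, Real.log_pow, ← hC]
    push_cast
    field_simp
  have hE4 : (C : ℝ) * a / 3072 * Real.log b ≤
      4 * (2 * ((2 * (C : ℝ) + 2) * Real.log w) + 4 * Real.log β) := by
    rw [← hE3]
    exact mul_le_mul_of_nonneg_right hE2 hlogb0.le
  have h5 : (C : ℝ) * (Real.log b + 32 * Real.log w) ≤ (C : ℝ) * a / 3072 * Real.log b := by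
    have h6 : (C : ℝ) * (3072 * (Real.log b + 32 * Real.log w)) ≤ C * (a * Real.log b) :=
      mul_le_mul_of_nonneg_left ha (by positivity)
    linarith
  have h6 : (0 : ℝ) ≤ (C - 1) * Real.log w := mul_nonneg (by linarith) hlogw
  have h7 : (C : ℝ) * Real.log b ≤ 16 * Real.log β := by nlinarith
  have h8 : (q : ℝ) ≤ C := by
    have : q ≤ C := Nat.div_le_div_left (by omega) hM0
    exact_mod_cast this
  exact (mul_le_mul_of_nonneg_right h8 hlogb0.le).trans h7

theorem nonempty_fibre {e m b : ℕ} (A : Finset (Fin (e + 3) × Fin m → Fin b)) (hne : A.Nonempty)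
    (z : Fin b) (a : Fin (e + 3) → ℕ) :
    ∃ u, 1 ≤ (A.filter (fun f => mask z (Spre a) f = u)).card := by
  obtain ⟨f, hf⟩ := hne
  exact ⟨mask z (Spre a) f, Finset.card_pos.2 ⟨f, by simp [hf]⟩⟩

theorem tri_le {e x1 x2 x3 m : ℕ} (h1 : x1 ≤ m) (h2 : x2 ≤ m) (h3 : x3 ≤ m) (j : Fin (e + 3)) :
    tri e x1 x2 x3 j ≤ m := by
  unfold tri
  refine Fin.cases ?_ (fun j => ?_) j
  · simpa using h1
  · rw [Fin.cons_succ]
    refine Fin.cases ?_ (fun j => ?_) j
    · simpa using h2
    · rw [Fin.cons_succ]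
      refine Fin.cases ?_ (fun j => ?_) j
      · simpa using h3
      · simp

/-- the modulus -/
theorem modulus (w b : ℕ) (hw : 0 < w) (hb : 2 ≤ b) : ∃ a : ℕ,
    3072 * (Real.log b + 32 * Real.log w) ≤ a * Real.log b ∧
    32 * (4 * 2 ^ a) ≤ (2 * w) ^ 101383 := by
  set l := Nat.clog 2 w with hl
  have hb0 : (0 : ℝ) < b := by exact_mod_cast (by omega : 0 < b)
  have hlogb0 : 0 < Real.log b := Real.log_pos (by exact_mod_cast (by omega : 1 < b))
  refine ⟨3072 * (1 + 32 * l), ?_, ?_⟩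
  · have h1 : w ≤ 2 ^ l := Nat.le_pow_clog (by norm_num) w
    have h2 : Real.log w ≤ l * Real.log b := by
      calc Real.log w ≤ Real.log ((2 : ℝ) ^ l) :=
            Real.log_le_log (by exact_mod_cast hw) (by exact_mod_cast h1)
        _ = l * Real.log 2 := Real.log_pow _ _
        _ ≤ l * Real.log b := by
            apply mul_le_mul_of_nonneg_left _ (by positivity)
            exact Real.log_le_log (by norm_num) (by exact_mod_cast hb)
    push_cast
    linarith
  · have h1 : 2 ^ l ≤ 2 * w := by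
      rcases Nat.lt_or_ge 1 w with h | h
      · have h2 := Nat.pow_pred_clog_lt_self (b := 2) (by norm_num) h
        have h3 : 0 < l := Nat.clog_pos (by norm_num) h
        have h4 : 2 ^ l = 2 * 2 ^ (l - 1) := by
          rw [← pow_succ']; congr 1; omega
        rw [h4]
        have h5 : 2 ^ (l - 1) < w := h2
        omega
      · have : w = 1 := by omega
        rw [hl, this]
        simp
    have h2w : 2 ≤ 2 * w := by omega
    have key : ∀ k1 k2 : ℕ, 2 ^ k1 * (2 ^ l) ^ k2 ≤ (2 * w) ^ (k1 + k2) := by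
      intro k1 k2
      rw [pow_add]
      exact Nat.mul_le_mul (Nat.pow_le_pow_left h2w _) (Nat.pow_le_pow_left h1 _)
    have h7 : ∀ c1 c2 : ℕ, 32 * (4 * 2 ^ (c1 * (1 + c2 * l))) = 2 ^ (7 + c1) * (2 ^ l) ^ (c1 * c2) := by
      intro c1 c2
      have e : c1 * (1 + c2 * l) = c1 + l * (c1 * c2) := by ring
      rw [e, ← pow_mul, pow_add, pow_add]
      ring
    calc 32 * (4 * 2 ^ (3072 * (1 + 32 * l))) = 2 ^ (7 + 3072) * (2 ^ l) ^ (3072 * 32) := h7 3072 32
      _ ≤ (2 * w) ^ ((7 + 3072) + 3072 * 32) := key _ _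
      _ = (2 * w) ^ 101383 := by
          congr 1

theorem log_bound (e m w b T : ℕ) (hb : 2 ≤ b) (hw : 0 < w)
    (ord : Fin T ≃ Fin (e + 3) × Fin m)
    (A : Finset (Fin (e + 3) × Fin m → Fin b))
    (hA : Width ord w A) (hne : A.Nonempty) (Δ : ℝ)
    (hΔ : ∀ x : Fin (e + 3) → ℝ, (∀ j, 0 ≤ x j) → (∀ j, x j < 1) →
      |nb A x - A.card * ∏ j, x j| ≤ Δ) :
    (A.card : ℝ) ^ ((1 : ℝ) / (2 * w) ^ 101383) ≤ 2 ^ (e + 4) * (b : ℝ) ^ 3 * Δ := by
  have hlogw : 0 ≤ Real.log w := Real.log_nonneg (by exact_mod_cast hw)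
  have hb0 : (0 : ℝ) < b := by exact_mod_cast (by omega : 0 < b)
  have hb2 : (2 : ℝ) ≤ b := by exact_mod_cast hb
  have hlogb0 : 0 < Real.log b := Real.log_pos (by linarith)
  let z : Fin b := ⟨0, by omega⟩
  -- the modulus
  obtain ⟨a, ha, hwK⟩ := modulus w b hw hb
  set M : ℕ := 4 * 2 ^ a with hMdef
  have hM : 2 ≤ M := by
    have : 1 ≤ 2 ^ a := Nat.one_le_two_pow
    omega
  have hM0 : (0 : ℝ) < M := by exact_mod_cast (by omega : 0 < M)
  set N := A.card with hNdef
  have hN1 : 1 ≤ N := hne.card_pos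
  have hN1' : (1 : ℝ) ≤ N := by exact_mod_cast hN1
  have hlogN : 0 ≤ Real.log N := Real.log_nonneg hN1'
  have htriv : (N : ℝ) / (b : ℝ) ^ m ≤ Δ := trivial_bound hb (by omega) A Δ hΔ
  have hΔ0 : 0 < Δ := lt_of_lt_of_le (by positivity) htriv
  set Y : ℝ := 2 ^ (e + 3) * Δ with hY
  have hΔY : Δ ≤ Y := by
    rw [hY]
    have : (1 : ℝ) ≤ 2 ^ (e + 3) := one_le_pow₀ (by norm_num)
    nlinarith
  have hY0 : 0 < Y := by positivity
  have hfib : ∀ a : Fin (e + 3) → ℕ, (∀ j, a j ≤ m) → ∀ u,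
      ((A.filter (fun f => mask z (Spre a) f = u)).card : ℝ) ≤ N / (b : ℝ) ^ (∑ j, a j) + Y :=
    fun a ha u => fibre_bound hb A Δ hΔ0.le hΔ a ha z u
  have hfibn : ∀ n ≤ m, ∀ a : Fin (e + 3) → ℕ, ∑ j, a j = n → ∀ u,
      (A.filter (fun f => mask z (Spre a) f = u)).card ≤ ⌊(N : ℝ) / (b : ℝ) ^ n + Y⌋₊ := by
    intro n hn a ha u
    apply Nat.le_floor
    rw [← ha]
    apply hfib
    intro j
    refine le_trans ?_ hn
    rw [← ha]
    exact Finset.single_le_sum (f := a) (fun _ _ => Nat.zero_le _) (Finset.mem_univ j)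
  have hfloor : ∀ n ≤ m, 1 ≤ ⌊(N : ℝ) / (b : ℝ) ^ n + Y⌋₊ := by
    intro n hn
    obtain ⟨u, hu⟩ := nonempty_fibre A hne z (tri e n 0 0)
    refine hu.trans (hfibn n hn (tri e n 0 0) ?_ u)
    rw [sum_tri e n 0 0 (fun _ v => v) (fun _ => rfl)]
    rfl
  have hcore : ∀ n ≤ m, b ^ n ≤ N →
      ((n / M : ℕ) : ℝ) * Real.log b ≤ 16 * Real.log ((N : ℝ) / (b : ℝ) ^ n + Y) := by
    intro n hn hbn
    have h1 := core e m w b T hb hw ord A hA n hn hbn a ha
      ⌊(N : ℝ) / (b : ℝ) ^ n + Y⌋₊ (hfloor n hn) z (hfibn n hn)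
    have h2 : Real.log ((⌊(N : ℝ) / (b : ℝ) ^ n + Y⌋₊ : ℕ) : ℝ) ≤
        Real.log ((N : ℝ) / (b : ℝ) ^ n + Y) := by
      apply Real.log_le_log
      · exact_mod_cast hfloor n hn
      · exact Nat.floor_le (by positivity)
    linarith
  have hdivM : ∀ n : ℕ, ((n : ℝ) + 1) ≤ (((n / M : ℕ) : ℝ) + 1) * M := by
    intro n
    have h1 := Nat.div_add_mod n M
    have h2 := Nat.mod_lt n (by omega : 0 < M)
    have h3 : n + 1 ≤ (n / M + 1) * M := by
      rw [Nat.add_mul, Nat.one_mul, Nat.mul_comm (n / M) M]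
      omega
    exact_mod_cast h3
  -- main claim
  have hclaim : Real.log N ≤ 32 * M * Real.log (2 * (b : ℝ) ^ 3 * Y) := by
    have hposX : 0 < 2 * (b : ℝ) ^ 3 * Y := by positivity
    rcases Nat.lt_or_ge (b ^ m) N with hcase | hcase
    · -- many points
      have hcase' : (b : ℝ) ^ m < N := by exact_mod_cast hcase
      have hmlog : Real.log ((b : ℝ) ^ m) = m * Real.log b := Real.log_pow _ _
      rcases le_or_gt (Real.log N) (2 * (m * Real.log b)) with h2m | h2m
      · have h1 := hcore m le_rfl hcase.le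
        have h2 : Real.log ((N : ℝ) / (b : ℝ) ^ m + Y) ≤ Real.log (2 * Y) := by
          apply Real.log_le_log (by positivity)
          linarith
        have h3 := hdivM m
        have h4 : (m : ℝ) * Real.log b ≤ (((m / M : ℕ) : ℝ) + 1) * M * Real.log b := by
          have : (m : ℝ) ≤ (((m / M : ℕ) : ℝ) + 1) * M := by linarith
          exact mul_le_mul_of_nonneg_right this hlogb0.le
        have h5 : (((m / M : ℕ) : ℝ) + 1) * M * Real.log b =
            M * (((m / M : ℕ) : ℝ) * Real.log b + Real.log b) := by ring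
        have h6 : M * (((m / M : ℕ) : ℝ) * Real.log b + Real.log b) ≤
            M * (16 * Real.log (2 * Y) + 16 * Real.log b) := by
          apply mul_le_mul_of_nonneg_left _ hM0.le
          linarith
        have h7 : Real.log (2 * (b : ℝ) ^ 3 * Y) = Real.log (2 * Y) + 3 * Real.log b := by
          rw [show 2 * (b : ℝ) ^ 3 * Y = (2 * Y) * (b : ℝ) ^ 3 by ring,
            Real.log_mul (by positivity) (by positivity), Real.log_pow]
          push_cast; ring
        rw [h7]
        have h8 : M * (16 * Real.log (2 * Y) + 16 * Real.log b) ≤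
            M * (16 * (Real.log (2 * Y) + 3 * Real.log b)) := by
          apply mul_le_mul_of_nonneg_left _ hM0.le
          linarith
        linarith
      · have h1 : Real.log ((N : ℝ) / (b : ℝ) ^ m) ≤ Real.log (2 * (b : ℝ) ^ 3 * Y) := by
          apply Real.log_le_log (by positivity)
          refine htriv.trans (hΔY.trans ?_)
          have : (1 : ℝ) ≤ (b : ℝ) ^ 3 := one_le_pow₀ (by linarith)
          nlinarith
        rw [Real.log_div (by positivity) (by positivity), hmlog] at h1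
        have h2 : Real.log N ≤ 2 * Real.log (2 * (b : ℝ) ^ 3 * Y) := by linarith
        have h3 : 0 ≤ Real.log (2 * (b : ℝ) ^ 3 * Y) := by linarith
        have h4 : (2 : ℝ) ≤ 32 * M := by
          have : (2 : ℝ) ≤ M := by exact_mod_cast hM
          linarith
        exact h2.trans (mul_le_mul_of_nonneg_right h4 h3)
    · -- at most `b^m` points
      set n := Nat.log b N with hn
      have hn1 : b ^ n ≤ N := Nat.pow_log_le_self b (by omega)
      have hn2 : N < b ^ (n + 1) := Nat.lt_pow_succ_log_self (by omega) N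
      have hnm : n ≤ m := (Nat.pow_le_pow_iff_right (by omega : 1 < b)).1 (hn1.trans hcase)
      have hn2' : (N : ℝ) ≤ (b : ℝ) ^ (n + 1) := by exact_mod_cast hn2.le
      have hYb : 1 / (b : ℝ) ≤ Y := by
        rcases Nat.lt_or_ge m 2 with hm2 | hm2
        · refine le_trans ?_ (htriv.trans hΔY)
          have h1 : (b : ℝ) ^ m ≤ b := by
            calc (b : ℝ) ^ m ≤ (b : ℝ) ^ 1 := pow_le_pow_right₀ (by linarith) (by omega)
              _ = b := pow_one _
          exact div_le_div₀ (by positivity) hN1' (by positivity) h1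
        · have hsum : ∑ j, tri e (min m (n + 2)) (n + 2 - min m (n + 2)) 0 j = n + 2 := by
            rw [sum_tri e _ _ _ (fun _ v => v) (fun _ => rfl)]
            omega
          obtain ⟨u, hu⟩ := nonempty_fibre A hne z (tri e (min m (n + 2)) (n + 2 - min m (n + 2)) 0)
          have h1 := hfib (tri e (min m (n + 2)) (n + 2 - min m (n + 2)) 0)
            (tri_le (by omega) (by omega) (by omega)) u
          rw [hsum] at h1
          have h2 : (1 : ℝ) ≤ ((A.filter (fun f =>
            mask z (Spre (tri e (min m (n + 2)) (n + 2 - min m (n + 2)) 0)) f = u)).card : ℝ) := by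
            exact_mod_cast hu
          have h3 : (N : ℝ) / (b : ℝ) ^ (n + 2) ≤ 1 / b := by
            rw [div_le_div_iff₀ (by positivity) hb0]
            calc (N : ℝ) * b ≤ (b : ℝ) ^ (n + 1) * b := mul_le_mul_of_nonneg_right hn2' hb0.le
              _ = 1 * (b : ℝ) ^ (n + 2) := by ring
          have h4 : 1 / (b : ℝ) ≤ 1 / 2 := one_div_le_one_div_of_le (by norm_num) hb2
          linarith
      have h1 := hcore n hnm hn1
      have h2 : (N : ℝ) / (b : ℝ) ^ n ≤ b := by
        rw [div_le_iff₀ (by positivity)]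
        calc (N : ℝ) ≤ (b : ℝ) ^ (n + 1) := hn2'
          _ = b * (b : ℝ) ^ n := by ring
      have h3 : (N : ℝ) / (b : ℝ) ^ n + Y ≤ 2 * (b : ℝ) ^ 2 * Y := by
        have h4 : 1 ≤ b * Y := by
          rw [div_le_iff₀ hb0] at hYb
          linarith
        have h5 : (b : ℝ) ≤ (b : ℝ) ^ 2 * Y := by nlinarith
        have h6 : Y ≤ (b : ℝ) ^ 2 * Y := by
          have : (1 : ℝ) ≤ (b : ℝ) ^ 2 := one_le_pow₀ (by linarith)
          nlinarith
        linarith
      have h4 : Real.log ((N : ℝ) / (b : ℝ) ^ n + Y) ≤ Real.log (2 * (b : ℝ) ^ 2 * Y) :=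
        Real.log_le_log (by positivity) h3
      have h7 : Real.log (2 * (b : ℝ) ^ 3 * Y) = Real.log (2 * (b : ℝ) ^ 2 * Y) + Real.log b := by
        rw [show 2 * (b : ℝ) ^ 3 * Y = (2 * (b : ℝ) ^ 2 * Y) * b by ring,
          Real.log_mul (by positivity) (by positivity)]
      have h8 : Real.log N ≤ (n + 1) * Real.log b := by
        calc Real.log N ≤ Real.log ((b : ℝ) ^ (n + 1)) := Real.log_le_log (by positivity) hn2'
          _ = _ := by rw [Real.log_pow]; push_cast; ring
      have h9 : ((n : ℝ) + 1) * Real.log b ≤ (((n / M : ℕ) : ℝ) + 1) * M * Real.log b :=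
        mul_le_mul_of_nonneg_right (hdivM n) hlogb0.le
      have h10 : (((n / M : ℕ) : ℝ) + 1) * M * Real.log b =
          M * (((n / M : ℕ) : ℝ) * Real.log b + Real.log b) := by ring
      have h11 : M * (((n / M : ℕ) : ℝ) * Real.log b + Real.log b) ≤
          M * (16 * Real.log (2 * (b : ℝ) ^ 3 * Y)) := by
        apply mul_le_mul_of_nonneg_left _ hM0.le
        rw [h7]
        linarith
      have h12 : Real.log N ≤ M * (16 * Real.log (2 * (b : ℝ) ^ 3 * Y)) := by linarith
      linarith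
  -- the exponent
  have hexp : (1 : ℝ) / (2 * w) ^ 101383 ≤ 1 / (32 * M) := by
    apply one_div_le_one_div_of_le (by positivity)
    exact_mod_cast hwK
  have hposX : 0 < 2 * (b : ℝ) ^ 3 * Y := by positivity
  have hfinal : (N : ℝ) ^ ((1 : ℝ) / (2 * w) ^ 101383) ≤ 2 * (b : ℝ) ^ 3 * Y := by
    rw [← Real.log_le_log_iff (by positivity) hposX, Real.log_rpow (by positivity)]
    calc (1 : ℝ) / (2 * w) ^ 101383 * Real.log N
        ≤ 1 / (32 * M) * Real.log N := mul_le_mul_of_nonneg_right hexp hlogN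
      _ ≤ _ := by
          rw [div_mul_eq_mul_div, one_mul, div_le_iff₀ (by positivity)]
          linarith
  refine hfinal.trans (le_of_eq ?_)
  rw [hY]
  ring

end Pool.Agent.H64.SD
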