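import Pool.Agent.H64.SD.Rect

set_option autoImplicit false
set_option linter.unusedSectionVars false

/-!
# Nondeterministic read-once programs and rectangular sets
-/

namespace Pool.Agent.H64.SD

open Finset

section
variable {ι : Type} [Fintype ι] [DecidableEq ι] {T w b : ℕ}

/-- the rectangle property of width `w` for the order `ord` of the positions -/
def Width (ord : Fin T ≃ ι) (w : ℕ) (A : Finset (ι → Fin b)) : Prop :=
  ∀ (B : ℕ) (κ : ι → Fin B), 0 < B → (∀ i j, ord.symm i ≤ ord.symm j → κ i ≤ κ j) →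
    ∃ P : Finset (ι → Fin b), P ⊆ A ∧ P.Nonempty ∧ Rect κ P ∧ A.card ≤ w ^ B * P.card

/-- the program can go from the state `q` at the time `t₁` to the state `q'` at the time `t₂` on the
input `f` -/
def Path (e : Fin T ≃ ι) (step : Fin T → Fin w → Fin b → Set (Fin w)) (t1 t2 : ℕ) (q q' : Fin w)
    (f : ι → Fin b) : Prop :=
  ∃ r : ℕ → Fin w, r t1 = q ∧ r t2 = q' ∧
    ∀ t (h : t < T), t1 ≤ t → t < t2 → r (t + 1) ∈ step ⟨t, h⟩ (r t) (f (e ⟨t, h⟩))

theorem Path.trans {e : Fin T ≃ ι} {step : Fin T → Fin w → Fin b → Set (Fin w)} {t1 t2 t3 : ℕ}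
    {q q' q'' : Fin w} {f : ι → Fin b} (h12 : t1 ≤ t2) (h23 : t2 ≤ t3)
    (h : Path e step t1 t2 q q' f) (h' : Path e step t2 t3 q' q'' f) :
    Path e step t1 t3 q q'' f := by
  obtain ⟨r, hr1, hr2, hr3⟩ := h
  obtain ⟨r', hr1', hr2', hr3'⟩ := h'
  refine ⟨fun t => if t ≤ t2 then r t else r' t, ?_, ?_, ?_⟩
  · simp only [h12, if_true]; exact hr1
  · by_cases h : t3 ≤ t2
    · have : t3 = t2 := le_antisymm h h23
      subst this
      simp only [le_refl, if_true]
      rw [hr2, ← hr1', hr2']
    · simp only [h, if_false]; exact hr2'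
  · intro t ht h1 h2
    show (if t + 1 ≤ t2 then r (t + 1) else r' (t + 1)) ∈
      step ⟨t, ht⟩ (if t ≤ t2 then r t else r' t) (f (e ⟨t, ht⟩))
    by_cases hc : t < t2
    · rw [if_pos (by omega : t + 1 ≤ t2), if_pos hc.le]
      exact hr3 t ht h1 hc
    · rw [if_neg (by omega : ¬ t + 1 ≤ t2)]
      have e1 : (if t ≤ t2 then r t else r' t) = r' t := by
        by_cases h : t ≤ t2
        · have : t = t2 := by omega
          subst this
          rw [if_pos le_rfl, hr2, hr1']
        · rw [if_neg h]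
      rw [e1]
      exact hr3' t ht (by omega) h2

theorem Path.congr {e : Fin T ≃ ι} {step : Fin T → Fin w → Fin b → Set (Fin w)} {t1 t2 : ℕ}
    {q q' : Fin w} {f g : ι → Fin b}
    (hfg : ∀ i, t1 ≤ (e.symm i).val → (e.symm i).val < t2 → f i = g i)
    (h : Path e step t1 t2 q q' f) : Path e step t1 t2 q q' g := by
  obtain ⟨r, hr1, hr2, hr3⟩ := h
  refine ⟨r, hr1, hr2, fun t ht h1 h2 => ?_⟩
  rw [← hfg (e ⟨t, ht⟩) (by simpa using h1) (by simpa using h2)]
  exact hr3 t ht h1 h2

theorem exists_cut (e : Fin T ≃ ι) {B : ℕ} (κ : ι → Fin B)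
    (hκ : ∀ i j, e.symm i ≤ e.symm j → κ i ≤ κ j) :
    ∃ cut : ℕ → ℕ, cut 0 = 0 ∧ (∀ k, cut k ≤ cut (k + 1)) ∧ (∀ k, cut k ≤ T) ∧
      (∀ k i, (e.symm i).val < cut k ↔ (κ i).val < k) := by
  classical
  have hex : ∀ k : ℕ, ∃ t : ℕ, ∀ i, t ≤ (e.symm i).val → k ≤ (κ i).val := by
    intro k
    exact ⟨T, fun i h => absurd (e.symm i).isLt (by omega)⟩
  refine ⟨fun k => Nat.find (hex k), ?_, ?_, ?_, ?_⟩
  · show Nat.find (hex 0) = 0
    rw [Nat.find_eq_zero]
    intro i _
    exact Nat.zero_le _
  · intro k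
    apply Nat.find_min'
    intro i hi
    have := Nat.find_spec (hex (k + 1)) i hi
    omega
  · intro k
    apply Nat.find_min'
    intro i h
    exact absurd (e.symm i).isLt (by omega)
  · intro k i
    constructor
    · intro h
      have := Nat.find_min (hex k) h
      push Not at this
      obtain ⟨i', h1, h2⟩ := this
      have := hκ i i' (by rw [Fin.le_def]; exact h1)
      rw [Fin.le_def] at this
      omega
    · intro h
      by_contra hc
      push Not at hc
      have := Nat.find_spec (hex k) i hc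
      omega

/-- among the inputs accepted by a program of width `w` there is a rectangular set which
contains at least the proportion `w^(-B)` of them -/
theorem width_of_program (e : Fin T ≃ ι) (step : Fin T → Fin w → Fin b → Set (Fin w))
    (start accept : Set (Fin w)) (A : Finset (ι → Fin b))
    (hA : ∀ f, f ∈ A ↔ ∃ q ∈ start, ∃ q' ∈ accept, Path e step 0 T q q' f) (hne : A.Nonempty) :
    Width e w A := by
  classical
  intro B κ hB hκ
  obtain ⟨cut, hc0, hcm, hcT, hcut⟩ := exists_cut e κ hκ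
  have hcB : cut B = T := by
    refine le_antisymm (hcT B) ?_
    by_contra hlt
    push Not at hlt
    have h1 := (hcut B (e ⟨cut B, hlt⟩)).2 (κ _).isLt
    simp at h1
  have hcmono : ∀ k, 0 ≤ cut k := fun k => Nat.zero_le _
  -- the conditions on the pieces
  let E : (Fin B → Fin w) → Fin B → Set (Fin w) := fun s k =>
    if h : k.val = 0 then start else {s ⟨k.val - 1, by omega⟩}
  let Cd : (Fin B → Fin w) → Fin B → (ι → Fin b) → Prop := fun s k f =>
    ∃ q ∈ E s k, Path e step (cut k.val) (cut (k.val + 1)) q (s k) f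
  have hloc : ∀ s k f g, (∀ i, κ i = k → f i = g i) → Cd s k f → Cd s k g := by
    rintro s k f g hfg ⟨q, hq, hp⟩
    refine ⟨q, hq, hp.congr fun i h1 h2 => hfg i ?_⟩
    have h3 : (κ i).val < k.val + 1 := (hcut (k.val + 1) i).1 h2
    have h4 : ¬ (κ i).val < k.val := fun h => absurd ((hcut k.val i).2 h) (by omega)
    exact Fin.ext (by omega)
  -- gluing
  have hglue : ∀ s f, (∀ k, Cd s k f) → s ⟨B - 1, by omega⟩ ∈ accept → f ∈ A := by
    intro s f hC hacc
    have key : ∀ k (hk : k < B), ∃ q ∈ start, Path e step 0 (cut (k + 1)) q (s ⟨k, hk⟩) f := by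
      intro k
      induction k with
      | zero =>
        intro hk
        obtain ⟨q, hq, hp⟩ := hC ⟨0, hk⟩
        have hq' : q ∈ start := by simpa [E] using hq
        refine ⟨q, hq', ?_⟩
        have h1 : cut (⟨0, hk⟩ : Fin B).val = 0 := hc0
        rw [h1] at hp
        exact hp
      | succ k ih =>
        intro hk
        obtain ⟨q, hq, hp⟩ := ih (by omega)
        obtain ⟨q1, hq1, hp1⟩ := hC ⟨k + 1, hk⟩
        have hq1' : q1 = s ⟨k, by omega⟩ := by
          have : q1 ∈ ({s ⟨k + 1 - 1, by omega⟩} : Set (Fin w)) := by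
            simpa [E] using hq1
          exact this
        refine ⟨q, hq, ?_⟩
        rw [hq1'] at hp1
        exact hp.trans (Nat.zero_le _) (hcm (k + 1)) hp1
    obtain ⟨q, hq, hp⟩ := key (B - 1) (by omega)
    rw [hA]
    refine ⟨q, hq, s ⟨B - 1, by omega⟩, hacc, ?_⟩
    have h1 : cut (B - 1 + 1) = T := by
      have : B - 1 + 1 = B := by omega
      rw [this, hcB]
    rw [h1] at hp
    exact hp
  -- signature
  have hsig : ∀ f ∈ A, ∃ s : Fin B → Fin w, (∀ k, Cd s k f) ∧ s ⟨B - 1, by omega⟩ ∈ accept := by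
    intro f hf
    obtain ⟨q, hq, q', hq', r, hr1, hr2, hr3⟩ := (hA f).1 hf
    refine ⟨fun k => r (cut (k.val + 1)), fun k => ⟨r (cut k.val), ?_, r, rfl, rfl, ?_⟩, ?_⟩
    · simp only [E]
      by_cases h : k.val = 0
      · rw [dif_pos h, h, hc0, hr1]
        exact hq
      · rw [dif_neg h]
        show r (cut k.val) = r (cut (k.val - 1 + 1))
        have : k.val - 1 + 1 = k.val := by omega
        rw [this]
    · intro t ht h1 h2
      exact hr3 t ht (Nat.zero_le _) (by have := hcT (k.val + 1); omega)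
    · show r (cut (B - 1 + 1)) ∈ accept
      have : B - 1 + 1 = B := by omega
      rw [this, hcB, hr2]
      exact hq'
  haveI : Nonempty (Fin B → Fin w) := ⟨(hsig _ hne.choose_spec).choose⟩
  choose! σ hσ1 hσ2 using hsig
  -- pigeonhole
  obtain ⟨s, hs⟩ : ∃ s : Fin B → Fin w, A.card ≤ w ^ B * (A.filter (fun f => σ f = s)).card := by
    by_contra hcon
    push Not at hcon
    have h1 : A.card = ∑ s : Fin B → Fin w, (A.filter (fun f => σ f = s)).card :=
      Finset.card_eq_sum_card_fiberwise (fun _ _ => by simp)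
    have hwB : Fintype.card (Fin B → Fin w) = w ^ B := by simp
    have hne2 : (univ : Finset (Fin B → Fin w)).Nonempty := ⟨σ hne.choose, by simp⟩
    have h2 : ∑ s : Fin B → Fin w, w ^ B * (A.filter (fun f => σ f = s)).card <
        ∑ _s : Fin B → Fin w, A.card := by
      apply Finset.sum_lt_sum_of_nonempty hne2
      intro s _
      exact hcon s
    rw [← Finset.mul_sum, ← h1, Finset.sum_const, Finset.card_univ, hwB, smul_eq_mul] at h2
    exact lt_irrefl _ h2
  have hfne : (A.filter (fun f => σ f = s)).Nonempty := by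
    rw [← Finset.card_pos]
    by_contra h0
    have : (A.filter (fun f => σ f = s)).card = 0 := by omega
    rw [this] at hs
    have := hne.card_pos
    omega
  have hacc : s ⟨B - 1, by omega⟩ ∈ accept := by
    obtain ⟨f, hf⟩ := hfne
    rw [Finset.mem_filter] at hf
    have := hσ2 f hf.1
    rw [hf.2] at this
    exact this
  refine ⟨A.filter (fun f => ∀ k, Cd s k f), Finset.filter_subset _ _, ?_, ?_, ?_⟩
  · obtain ⟨f, hf⟩ := hfne
    rw [Finset.mem_filter] at hf
    refine ⟨f, Finset.mem_filter.2 ⟨hf.1, ?_⟩⟩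
    have := hσ1 f hf.1
    rw [hf.2] at this
    exact this
  · intro F hF
    have hC : ∀ k, Cd s k (fun i => F (κ i) i) := by
      intro k
      have h1 := (Finset.mem_filter.1 (hF k)).2 k
      exact hloc s k (F k) _ (fun i hi => by rw [← hi]) h1
    exact Finset.mem_filter.2 ⟨hglue s _ hC hacc, hC⟩
  · refine hs.trans (Nat.mul_le_mul_left _ (Finset.card_le_card ?_))
    intro f hf
    rw [Finset.mem_filter] at hf ⊢
    refine ⟨hf.1, ?_⟩
    have := hσ1 f hf.1
    rw [hf.2] at this
    exact this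

end

end Pool.Agent.H64.SD
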