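import Mathlib

set_option autoImplicit false
set_option linter.unusedSectionVars false

/-!
# Rectangular sets of words

A set `P` of functions `ι → α` is rectangular for a partition `κ : ι → K` when a function which
agrees on every piece with some member of `P` is in `P`.
-/

namespace Pool.Agent.H64.SD

open Finset

section
variable {ι α K : Type} [Fintype ι] [DecidableEq ι] [Fintype α] [DecidableEq α] [Fintype K]
  [DecidableEq K]

/-- replace the values outside `S` by `z` -/
def mask (z : α) (S : Finset ι) (f : ι → α) : ι → α := fun i => if i ∈ S then f i else z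

/-- masked members of `P` -/
def pr (z : α) (S : Finset ι) (P : Finset (ι → α)) : Finset (ι → α) := P.image (mask z S)

/-- the `k`-th piece -/
def pc (κ : ι → K) (k : K) : Finset ι := univ.filter (fun i => κ i = k)

/-- rectangular set -/
def Rect (κ : ι → K) (P : Finset (ι → α)) : Prop :=
  ∀ F : K → (ι → α), (∀ k, F k ∈ P) → (fun i => F (κ i) i) ∈ P

theorem mask_mask (z : α) (S T : Finset ι) (f : ι → α) :
    mask z S (mask z T f) = mask z (T ∩ S) f := by
  funext i
  unfold mask
  by_cases h1 : i ∈ S <;> by_cases h2 : i ∈ T <;> simp [h1, h2]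

theorem prod_pr_le (z : α) (κ : ι → K) (P : Finset (ι → α)) (hP : Rect κ P) :
    ∏ k, (pr z (pc κ k) P).card ≤ P.card := by
  classical
  rw [← Fintype.card_piFinset]
  refine Finset.card_le_card_of_injOn (fun g i => g (κ i) i) ?_ ?_
  · intro g hg
    have hg' : ∀ k, ∃ f ∈ P, mask z (pc κ k) f = g k := by
      intro k
      have := Fintype.mem_piFinset.1 (Finset.mem_coe.1 hg) k
      simpa [pr] using this
    choose F hF hF2 using hg'
    have h := hP F hF
    have e : (fun i => g (κ i) i) = fun i => F (κ i) i := by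
      funext i
      rw [← hF2 (κ i)]
      simp [mask, pc]
    simpa [e] using h
  · intro g hg g' hg' h
    funext k i
    have key : ∀ u ∈ Fintype.piFinset (fun k => pr z (pc κ k) P), κ i ≠ k → u k i = z := by
      intro u hu hne
      have := Fintype.mem_piFinset.1 hu k
      obtain ⟨f, hf, hf2⟩ := Finset.mem_image.1 this
      rw [← hf2]
      simp [mask, pc, hne]
    by_cases hk : κ i = k
    · have := congrFun h i
      simp only [hk] at this
      exact this
    · rw [key g (Finset.mem_coe.1 hg) hk, key g' (Finset.mem_coe.1 hg') hk]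

theorem pr_le_prod (z : α) (κ : ι → K) (S : Finset ι) (P : Finset (ι → α)) :
    (pr z S P).card ≤ ∏ k, (pr z (S ∩ pc κ k) P).card := by
  classical
  rw [← Fintype.card_piFinset]
  refine Finset.card_le_card_of_injOn (fun g k => mask z (pc κ k) g) ?_ ?_
  · intro g hg
    rw [Finset.mem_coe, Fintype.mem_piFinset]
    intro k
    obtain ⟨f, hf, hf2⟩ := Finset.mem_image.1 (Finset.mem_coe.1 hg)
    refine Finset.mem_image.2 ⟨f, hf, ?_⟩
    show _ = mask z (pc κ k) g
    rw [← hf2, mask_mask]
  · intro g _ g' _ h
    funext i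
    have := congrFun (congrFun h (κ i)) i
    simpa [mask, pc] using this

theorem pr_card_le_pow (z : α) (S : Finset ι) (P : Finset (ι → α)) :
    (pr z S P).card ≤ Fintype.card α ^ S.card := by
  classical
  have hsub : pr z S P ⊆ Fintype.piFinset (fun i => if i ∈ S then (univ : Finset α) else {z}) := by
    intro g hg
    rw [Fintype.mem_piFinset]
    intro i
    obtain ⟨f, hf, hf2⟩ := Finset.mem_image.1 hg
    by_cases h : i ∈ S
    · simp [h]
    · rw [← hf2]; simp [h, mask]
  refine (Finset.card_le_card hsub).trans (le_of_eq ?_)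
  rw [Fintype.card_piFinset]
  have : ∀ i, (if i ∈ S then (univ : Finset α) else {z}).card =
      if i ∈ S then Fintype.card α else 1 := by
    intro i; split_ifs <;> simp
  simp only [this]
  rw [Finset.prod_ite]
  simp

theorem pr_inter_le (z : α) (S T : Finset ι) (P : Finset (ι → α)) :
    (pr z (S ∩ T) P).card ≤ (pr z T P).card := by
  classical
  have : pr z (S ∩ T) P = (pr z T P).image (mask z S) := by
    unfold pr
    rw [Finset.image_image]
    congr 1
    funext f
    simp only [Function.comp, mask_mask]
    rw [Finset.inter_comm]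
  rw [this]
  exact Finset.card_image_le

theorem pr_univ (z : α) (P : Finset (ι → α)) : pr z univ P = P := by
  unfold pr mask
  simp

/-- **balance of the pieces**: the number of letters of `S` in the pieces is dictated by `P` -/
theorem balance (z : α) (κ : ι → K) (P : Finset (ι → α)) (hP : Rect κ P) (hne : P.Nonempty)
    (hα : 1 ≤ Fintype.card α)
    (S : Finset ι) (β : ℕ)
    (hβ : ∀ u, (P.filter (fun f => mask z S f = u)).card ≤ β)
    (W : ℝ) (hW : 0 < W) (hN : (Fintype.card α : ℝ) ^ S.card ≤ W * P.card) :
    ∑ k, |((S ∩ pc κ k).card : ℝ) * Real.log (Fintype.card α) -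
      Real.log ((pr z (pc κ k) P).card)| ≤ Real.log W + 2 * Real.log β := by
  classical
  set b : ℝ := (Fintype.card α : ℝ) with hb
  have hb1 : 1 ≤ b := by rw [hb]; exact_mod_cast hα
  have hb0 : 0 < b := by linarith
  have hP0 : (0 : ℝ) < P.card := by exact_mod_cast hne.card_pos
  have prpos : ∀ T, (0 : ℝ) < (pr z T P).card := by
    intro T
    have : (pr z T P).Nonempty := hne.image _
    exact_mod_cast this.card_pos
  set c : K → ℝ := fun k => Real.log ((pr z (pc κ k) P).card) with hc
  set q : K → ℝ := fun k => Real.log ((pr z (S ∩ pc κ k) P).card) with hq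
  set s : K → ℝ := fun k => ((S ∩ pc κ k).card : ℝ) * Real.log b with hs
  have hsum : ∑ k, ((S ∩ pc κ k).card : ℝ) = S.card := by
    have : S.card = ∑ k, (S ∩ pc κ k).card := by
      rw [Finset.card_eq_sum_card_fiberwise (f := κ) (t := univ) (fun _ _ => by simp)]
      refine Finset.sum_congr rfl fun k _ => ?_
      congr 1
      ext i
      simp [pc]
    rw [this]; push_cast; rfl
  -- (i)
  have h1 : ∑ k, c k ≤ Real.log P.card := by
    rw [hc, ← Real.log_prod (fun k _ => (prpos _).ne')]
    apply Real.log_le_log (Finset.prod_pos fun k _ => prpos _)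
    exact_mod_cast prod_pr_le z κ P hP
  -- (ii)
  have hβ0 : 0 < β := by
    obtain ⟨f, hf⟩ := hne
    have : 0 < (P.filter (fun f' => mask z S f' = mask z S f)).card :=
      Finset.card_pos.2 ⟨f, by simp [hf]⟩
    exact lt_of_lt_of_le this (hβ _)
  have h2 : Real.log P.card ≤ Real.log β + ∑ k, q k := by
    have h21 : P.card ≤ β * (pr z S P).card :=
      Finset.card_le_mul_card_image P β (fun a _ => hβ a)
    have h22 := pr_le_prod z κ S P
    have h23 : (P.card : ℝ) ≤ β * ∏ k, ((pr z (S ∩ pc κ k) P).card : ℝ) := by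
      exact_mod_cast h21.trans (Nat.mul_le_mul_left _ h22)
    have hβ0' : (0 : ℝ) < β := by exact_mod_cast hβ0
    have hpp : (0 : ℝ) < ∏ k, ((pr z (S ∩ pc κ k) P).card : ℝ) :=
      Finset.prod_pos fun k _ => prpos _
    calc Real.log P.card ≤ Real.log (β * ∏ k, ((pr z (S ∩ pc κ k) P).card : ℝ)) :=
          Real.log_le_log hP0 h23
      _ = _ := by
          rw [Real.log_mul hβ0'.ne' hpp.ne', Real.log_prod (fun k _ => (prpos _).ne')]
  -- (iii)
  have h3 : Real.log P.card ≤ ∑ k, c k := by
    have h31 := pr_le_prod z κ univ P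
    rw [pr_univ] at h31
    simp only [Finset.univ_inter] at h31
    have h32 : (P.card : ℝ) ≤ ∏ k, ((pr z (pc κ k) P).card : ℝ) := by exact_mod_cast h31
    calc Real.log P.card ≤ Real.log (∏ k, ((pr z (pc κ k) P).card : ℝ)) :=
          Real.log_le_log hP0 h32
      _ = _ := Real.log_prod (fun k _ => (prpos _).ne')
  -- (iv)
  have h4 : (S.card : ℝ) * Real.log b ≤ Real.log W + Real.log P.card := by
    rw [← Real.log_pow, ← Real.log_mul hW.ne' hP0.ne']
    exact Real.log_le_log (by positivity) hN
  have hqs : ∀ k, q k ≤ s k := by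
    intro k
    simp only [hq, hs]
    rw [← Real.log_pow]
    apply Real.log_le_log (prpos _)
    rw [hb]
    exact_mod_cast pr_card_le_pow z (S ∩ pc κ k) P
  have hqc : ∀ k, q k ≤ c k := by
    intro k
    simp only [hq, hc]
    apply Real.log_le_log (prpos _)
    exact_mod_cast pr_inter_le z S (pc κ k) P
  have hss : ∑ k, s k = S.card * Real.log b := by
    simp only [hs]
    rw [← Finset.sum_mul, hsum]
  calc ∑ k, |s k - c k| ≤ ∑ k, ((s k - q k) + (c k - q k)) := by
        refine Finset.sum_le_sum fun k _ => ?_
        have := hqs k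
        have := hqc k
        rw [abs_le]
        constructor <;> linarith
    _ = ∑ k, s k + ∑ k, c k - 2 * ∑ k, q k := by
        rw [Finset.sum_add_distrib, Finset.sum_sub_distrib, Finset.sum_sub_distrib]
        ring
    _ ≤ Real.log W + 2 * Real.log β := by
        rw [hss]
        linarith

/-- comparison of two sets of letters of the same size -/
theorem balance_two (z : α) (κ : ι → K) (P : Finset (ι → α)) (hP : Rect κ P) (hne : P.Nonempty)
    (hα : 2 ≤ Fintype.card α)
    (S S' : Finset ι) (β : ℕ)
    (hβ : ∀ u, (P.filter (fun f => mask z S f = u)).card ≤ β)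
    (hβ' : ∀ u, (P.filter (fun f => mask z S' f = u)).card ≤ β)
    (W : ℝ) (hW : 0 < W) (hN : (Fintype.card α : ℝ) ^ S.card ≤ W * P.card)
    (hN' : (Fintype.card α : ℝ) ^ S'.card ≤ W * P.card) :
    ∑ k, |((S ∩ pc κ k).card : ℝ) - ((S' ∩ pc κ k).card : ℝ)| ≤
      (2 * Real.log W + 4 * Real.log β) / Real.log (Fintype.card α) := by
  have hlog : 0 < Real.log (Fintype.card α) := by
    apply Real.log_pos
    exact_mod_cast (by omega : 1 < Fintype.card α)
  have h1 := balance z κ P hP hne (by omega) S β hβ W hW hN
  have h2 := balance z κ P hP hne (by omega) S' β hβ' W hW hN'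
  rw [le_div_iff₀ hlog, Finset.sum_mul]
  calc ∑ k, |((S ∩ pc κ k).card : ℝ) - ((S' ∩ pc κ k).card : ℝ)| * Real.log (Fintype.card α)
      ≤ ∑ k, (|((S ∩ pc κ k).card : ℝ) * Real.log (Fintype.card α) -
          Real.log ((pr z (pc κ k) P).card)| +
        |((S' ∩ pc κ k).card : ℝ) * Real.log (Fintype.card α) -
          Real.log ((pr z (pc κ k) P).card)|) := by
        refine Finset.sum_le_sum fun k _ => ?_
        rw [← abs_of_pos hlog, ← abs_mul, abs_of_pos hlog]
        have : (((S ∩ pc κ k).card : ℝ) - ((S' ∩ pc κ k).card : ℝ)) * Real.log (Fintype.card α) =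
          (((S ∩ pc κ k).card : ℝ) * Real.log (Fintype.card α) -
          Real.log ((pr z (pc κ k) P).card)) -
          (((S' ∩ pc κ k).card : ℝ) * Real.log (Fintype.card α) -
          Real.log ((pr z (pc κ k) P).card)) := by ring
        rw [this]
        exact abs_sub _ _
    _ ≤ _ := by
        rw [Finset.sum_add_distrib]
        linarith

end

end Pool.Agent.H64.SD
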