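import Mathlib

set_option autoImplicit false
set_option linter.unusedSectionVars false

/-!
# Riesz products on a grid: the discrepancy of a planar set is large in `L¹(L^∞)`

A discrete form of the argument of Halász.  A set `P` of at most `2^a` points in a grid with
`n₀ = 2^(a+2) q` columns and `2^a` rows: the sum over the columns `x` of the maximum over the rows
`r` of `|#{p ∈ P : p.1 < x, p.2 < r} - x r / n|` is at least `a n₀² / (1536 n)`.
-/

namespace Pool.Agent.H64.SD

open Finset

/-- block-constant functions -/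
def BC (L : ℕ) (c : ℕ → ℝ) : Prop := ∀ x x', x / L = x' / L → c x = c x'

theorem BC.const (L : ℕ) (v : ℝ) : BC L (fun _ => v) := fun _ _ _ => rfl

theorem BC.mul {L : ℕ} {c c' : ℕ → ℝ} (h : BC L c) (h' : BC L c') : BC L (fun x => c x * c' x) := by
  intro x x' hx
  show c x * c' x = c x' * c' x'
  rw [h x x' hx, h' x x' hx]

theorem BC.add {L : ℕ} {c c' : ℕ → ℝ} (h : BC L c) (h' : BC L c') : BC L (fun x => c x + c' x) := by
  intro x x' hx
  show c x + c' x = c x' + c' x'
  rw [h x x' hx, h' x x' hx]

theorem BC.neg {L : ℕ} {c : ℕ → ℝ} (h : BC L c) : BC L (fun x => - c x) := by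
  intro x x' hx
  show - c x = - c x'
  rw [h x x' hx]

theorem BC.prod {L : ℕ} {ι : Type} (s : Finset ι) (c : ι → ℕ → ℝ) (h : ∀ i ∈ s, BC L (c i)) :
    BC L (fun x => ∏ i ∈ s, c i x) := by
  intro x x' hx
  exact Finset.prod_congr rfl fun i hi => h i hi x x' hx

theorem BC.mono {L : ℕ} {c : ℕ → ℝ} (k : ℕ) (h : BC (L * k) c) : BC L c := by
  intro x x' hx
  apply h
  rw [← Nat.div_div_eq_div_mul, ← Nat.div_div_eq_div_mul, hx]

/-- `-1` on the first half and `1` on the second half of each block of length `2 U` -/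
noncomputable def sg (U x : ℕ) : ℝ := if (x / U) % 2 = 1 then 1 else -1

theorem sg_BC (U : ℕ) : BC U (sg U) := by
  intro x x' hx
  unfold sg
  rw [hx]

theorem abs_sg (U x : ℕ) : |sg U x| = 1 := by
  unfold sg
  split_ifs <;> simp

theorem block_step (U : ℕ) (hU : 0 < U) (c : ℕ → ℝ) (hc : BC (2 * U) c) (g : ℕ → ℝ) (A : ℕ) :
    ∑ y ∈ range (2 * U), g (2 * U * A + y) * (c (2 * U * A + y) * sg U (2 * U * A + y)) =
      c (2 * U * A) * ∑ y ∈ range U, (g (2 * U * A + (U + y)) - g (2 * U * A + y)) := by
  rw [two_mul, Finset.sum_range_add, ← two_mul, ← Finset.sum_add_distrib, Finset.mul_sum]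
  refine Finset.sum_congr rfl fun y hy => ?_
  have hy' := mem_range.1 hy
  have h1 : c (2 * U * A + y) = c (2 * U * A) := by
    apply hc
    rw [Nat.mul_add_div (by omega), Nat.div_eq_of_lt (by omega), Nat.mul_div_cancel_left _ (by omega)]
    rfl
  have h2 : c (2 * U * A + (U + y)) = c (2 * U * A) := by
    apply hc
    rw [Nat.mul_add_div (by omega), Nat.div_eq_of_lt (by omega), Nat.mul_div_cancel_left _ (by omega)]
    rfl
  have h3 : sg U (2 * U * A + y) = -1 := by
    unfold sg
    have : (2 * U * A + y) / U = 2 * A := by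
      rw [show 2 * U * A + y = U * (2 * A) + y by ring, Nat.mul_add_div hU, Nat.div_eq_of_lt hy']
      rfl
    rw [this, if_neg (by omega)]
  have h4 : sg U (2 * U * A + (U + y)) = 1 := by
    unfold sg
    have : (2 * U * A + (U + y)) / U = 2 * A + 1 := by
      rw [show 2 * U * A + (U + y) = U * (2 * A + 1) + y by ring, Nat.mul_add_div hU,
        Nat.div_eq_of_lt hy']
    rw [this, if_pos (by omega)]
  rw [h1, h2, h3, h4]
  ring

theorem sum_sg (U : ℕ) (hU : 0 < U) (c : ℕ → ℝ) (hc : BC (2 * U) c) (A : ℕ) :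
    ∑ x ∈ range (2 * U * A), c x * sg U x = 0 := by
  induction A with
  | zero => simp
  | succ A ih =>
    rw [Nat.mul_succ, Finset.sum_range_add, ih, zero_add]
    have := block_step U hU c hc (fun _ => 1) A
    simp only [one_mul, sub_self, Finset.sum_const_zero, mul_zero] at this
    exact this

theorem sum_id_sg (U : ℕ) (hU : 0 < U) (c : ℕ → ℝ) (hc : BC (2 * U) c) (A : ℕ) :
    ∑ x ∈ range (2 * U * A), (x : ℝ) * (c x * sg U x) = (U : ℝ) / 2 * ∑ x ∈ range (2 * U * A), c x := by
  induction A with
  | zero => simp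
  | succ A ih =>
    rw [Nat.mul_succ, Finset.sum_range_add, ih, Finset.sum_range_add, mul_add]
    congr 1
    have := block_step U hU c hc (fun x => (x : ℝ)) A
    rw [this]
    have h1 : ∀ y ∈ range U, (((2 * U * A + (U + y) : ℕ) : ℝ) - ((2 * U * A + y : ℕ) : ℝ)) = U := by
      intro y _
      push_cast
      ring
    rw [Finset.sum_congr rfl h1, Finset.sum_const, card_range, nsmul_eq_mul]
    have h2 : ∀ y ∈ range (2 * U), c (2 * U * A + y) = c (2 * U * A) := by
      intro y hy
      apply hc
      have := mem_range.1 hy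
      rw [Nat.mul_add_div (by omega), Nat.div_eq_of_lt (by omega),
        Nat.mul_div_cancel_left _ (by omega)]
      rfl
    rw [Finset.sum_congr rfl h2, Finset.sum_const, card_range, nsmul_eq_mul]
    push_cast
    ring

/-- the discrepancy of the point set `P` in the grid -/
noncomputable def DD (P : Finset (ℕ × ℕ)) (n : ℕ) (x r : ℕ) : ℝ :=
  ∑ p ∈ P, (if p.1 < x then (1 : ℝ) else 0) * (if p.2 < r then (1 : ℝ) else 0) - (x : ℝ) / n * r

/-- pairing of `D` with a function which oscillates on cells without points -/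
theorem pairing (P : Finset (ℕ × ℕ)) (n U V A B : ℕ) (hU : 0 < U) (hV : 0 < V) (c : ℕ → ℕ → ℝ)
    (hx : ∀ r, BC (2 * U) (fun x => c x r)) (hr : ∀ x, BC (2 * V) (fun r => c x r))
    (hP : ∀ p ∈ P, ∀ x r, x / (2 * U) = p.1 / (2 * U) → r / (2 * V) = p.2 / (2 * V) → c x r = 0) :
    ∑ x ∈ range (2 * U * A), ∑ r ∈ range (2 * V * B), DD P n x r * (c x r * (sg U x * sg V r)) =
      - ((U : ℝ) * V / (4 * n)) * ∑ x ∈ range (2 * U * A), ∑ r ∈ range (2 * V * B), c x r := by
  have hpt : ∀ p ∈ P, ∑ x ∈ range (2 * U * A), ∑ r ∈ range (2 * V * B),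
      (if p.1 < x then (1 : ℝ) else 0) * (if p.2 < r then (1 : ℝ) else 0) *
        (c x r * (sg U x * sg V r)) = 0 := by
    intro p hp
    let α1 : ℕ → ℝ := fun x => if p.1 / (2 * U) < x / (2 * U) then 1 else 0
    let α2 : ℕ → ℝ := fun x => if p.1 / (2 * U) = x / (2 * U) ∧ p.1 < x then 1 else 0
    let β1 : ℕ → ℝ := fun r => if p.2 / (2 * V) < r / (2 * V) then 1 else 0
    let β2 : ℕ → ℝ := fun r => if p.2 / (2 * V) = r / (2 * V) ∧ p.2 < r then 1 else 0
    have hα : ∀ x, (if p.1 < x then (1 : ℝ) else 0) = α1 x + α2 x := by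
      intro x
      simp only [α1, α2]
      rcases lt_trichotomy (p.1 / (2 * U)) (x / (2 * U)) with h | h | h
      · have : p.1 < x := by
          by_contra hc
          push Not at hc
          have := Nat.div_le_div_right (c := 2 * U) hc
          omega
        rw [if_pos this, if_pos h, if_neg (by omega)]
        norm_num
      · rw [if_neg (by omega : ¬ p.1 / (2 * U) < x / (2 * U))]
        by_cases h2 : p.1 < x
        · rw [if_pos h2, if_pos ⟨h, h2⟩]; norm_num
        · rw [if_neg h2, if_neg (fun h3 => h2 h3.2)]; norm_num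
      · have : ¬ p.1 < x := by
          intro hc
          have := Nat.div_le_div_right (c := 2 * U) hc.le
          omega
        rw [if_neg this, if_neg (by omega), if_neg (by omega)]
        norm_num
    have hβ : ∀ r, (if p.2 < r then (1 : ℝ) else 0) = β1 r + β2 r := by
      intro x
      simp only [β1, β2]
      rcases lt_trichotomy (p.2 / (2 * V)) (x / (2 * V)) with h | h | h
      · have : p.2 < x := by
          by_contra hc
          push Not at hc
          have := Nat.div_le_div_right (c := 2 * V) hc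
          omega
        rw [if_pos this, if_pos h, if_neg (by omega)]
        norm_num
      · rw [if_neg (by omega : ¬ p.2 / (2 * V) < x / (2 * V))]
        by_cases h2 : p.2 < x
        · rw [if_pos h2, if_pos ⟨h, h2⟩]; norm_num
        · rw [if_neg h2, if_neg (fun h3 => h2 h3.2)]; norm_num
      · have : ¬ p.2 < x := by
          intro hc
          have := Nat.div_le_div_right (c := 2 * V) hc.le
          omega
        rw [if_neg this, if_neg (by omega), if_neg (by omega)]
        norm_num
    have hα1 : BC (2 * U) α1 := by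
      intro x x' h
      simp only [α1]
      rw [h]
    have hβ1 : BC (2 * V) β1 := by
      intro x x' h
      simp only [β1]
      rw [h]
    have hz : ∀ x r, α2 x * β2 r * c x r = 0 := by
      intro x r
      simp only [α2, β2]
      by_cases h1 : p.1 / (2 * U) = x / (2 * U) ∧ p.1 < x
      · by_cases h2 : p.2 / (2 * V) = r / (2 * V) ∧ p.2 < r
        · rw [hP p hp x r h1.1.symm h2.1.symm]; ring
        · rw [if_neg h2]; ring
      · rw [if_neg h1]; ring
    have hsplit : ∀ x r, (if p.1 < x then (1 : ℝ) else 0) * (if p.2 < r then (1 : ℝ) else 0) *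
        (c x r * (sg U x * sg V r)) =
        ((if p.2 < r then (1 : ℝ) else 0) * sg V r) * ((α1 x * c x r) * sg U x) +
        (α2 x * sg U x) * ((β1 r * c x r) * sg V r) := by
      intro x r
      have h := hz x r
      rw [hα x]
      have h2 : (if p.2 < r then (1 : ℝ) else 0) = β1 r + β2 r := hβ r
      calc (α1 x + α2 x) * (if p.2 < r then (1 : ℝ) else 0) * (c x r * (sg U x * sg V r))
          = ((if p.2 < r then (1 : ℝ) else 0) * sg V r) * ((α1 x * c x r) * sg U x) +
            α2 x * (if p.2 < r then (1 : ℝ) else 0) * (c x r * (sg U x * sg V r)) := by ring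
        _ = ((if p.2 < r then (1 : ℝ) else 0) * sg V r) * ((α1 x * c x r) * sg U x) +
            ((α2 x * sg U x) * ((β1 r * c x r) * sg V r) +
              (α2 x * β2 r * c x r) * (sg U x * sg V r)) := by
            congr 1
            rw [h2]
            ring
        _ = _ := by rw [h]; ring
    simp only [hsplit]
    simp only [Finset.sum_add_distrib]
    have e1 : ∑ x ∈ range (2 * U * A), ∑ r ∈ range (2 * V * B),
        ((if p.2 < r then (1 : ℝ) else 0) * sg V r) * ((α1 x * c x r) * sg U x) = 0 := by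
      rw [Finset.sum_comm]
      apply Finset.sum_eq_zero
      intro r _
      rw [← Finset.mul_sum, sum_sg U hU _ (hα1.mul (hx r)) A, mul_zero]
    have e2 : ∑ x ∈ range (2 * U * A), ∑ r ∈ range (2 * V * B),
        (α2 x * sg U x) * ((β1 r * c x r) * sg V r) = 0 := by
      apply Finset.sum_eq_zero
      intro x _
      rw [← Finset.mul_sum, sum_sg V hV _ (hβ1.mul (hr x)) B, mul_zero]
    rw [e1, e2, add_zero]
  have hlin : ∑ x ∈ range (2 * U * A), ∑ r ∈ range (2 * V * B),
      ((x : ℝ) / n * r) * (c x r * (sg U x * sg V r)) =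
      ((U : ℝ) * V / (4 * n)) * ∑ x ∈ range (2 * U * A), ∑ r ∈ range (2 * V * B), c x r := by
    have h1 : ∀ x : ℕ, ∑ r ∈ range (2 * V * B), ((x : ℝ) / n * r) * (c x r * (sg U x * sg V r)) =
        ((x : ℝ) / n * sg U x) * ((V : ℝ) / 2 * ∑ r ∈ range (2 * V * B), c x r) := by
      intro x
      rw [← sum_id_sg V hV (fun r => c x r) (hr x) B, Finset.mul_sum]
      refine Finset.sum_congr rfl fun r _ => ?_
      ring
    simp only [h1]
    have h2 : ∀ x : ℕ, ((x : ℝ) / n * sg U x) * ((V : ℝ) / 2 * ∑ r ∈ range (2 * V * B), c x r) =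
        ∑ r ∈ range (2 * V * B), ((V : ℝ) / (2 * n)) * ((x : ℝ) * (c x r * sg U x)) := by
      intro x
      rw [Finset.mul_sum, Finset.mul_sum]
      refine Finset.sum_congr rfl fun r _ => ?_
      ring
    simp only [h2]
    rw [Finset.sum_comm]
    have h3 : ∀ r, ∑ x ∈ range (2 * U * A), ((V : ℝ) / (2 * n)) * ((x : ℝ) * (c x r * sg U x)) =
        ((V : ℝ) / (2 * n)) * ((U : ℝ) / 2 * ∑ x ∈ range (2 * U * A), c x r) := by
      intro r
      rw [← Finset.mul_sum, sum_id_sg U hU (fun x => c x r) (hx r) A]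
    simp only [h3]
    rw [← Finset.mul_sum, ← Finset.mul_sum, Finset.sum_comm]
    ring
  have hD : ∀ x r, DD P n x r * (c x r * (sg U x * sg V r)) =
      ∑ p ∈ P, (if p.1 < x then (1 : ℝ) else 0) * (if p.2 < r then (1 : ℝ) else 0) *
        (c x r * (sg U x * sg V r)) - ((x : ℝ) / n * r) * (c x r * (sg U x * sg V r)) := by
    intro x r
    unfold DD
    rw [sub_mul, Finset.sum_mul]
  simp only [hD, Finset.sum_sub_distrib]
  rw [hlin]
  have h0 : ∑ x ∈ range (2 * U * A), ∑ r ∈ range (2 * V * B), ∑ p ∈ P,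
      (if p.1 < x then (1 : ℝ) else 0) * (if p.2 < r then (1 : ℝ) else 0) *
        (c x r * (sg U x * sg V r)) = 0 := by
    have : ∀ x, ∑ r ∈ range (2 * V * B), ∑ p ∈ P,
        (if p.1 < x then (1 : ℝ) else 0) * (if p.2 < r then (1 : ℝ) else 0) *
          (c x r * (sg U x * sg V r)) = ∑ p ∈ P, ∑ r ∈ range (2 * V * B),
        (if p.1 < x then (1 : ℝ) else 0) * (if p.2 < r then (1 : ℝ) else 0) *
          (c x r * (sg U x * sg V r)) := fun x => Finset.sum_comm
    simp only [this]
    rw [Finset.sum_comm]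
    exact Finset.sum_eq_zero hpt
  rw [h0]
  ring

end Pool.Agent.H64.SD
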