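import Pool.Agent.H64.SD.Riesz

set_option autoImplicit false
set_option linter.unusedSectionVars false

/-!
# The Riesz product
-/

namespace Pool.Agent.H64.SD

open Finset

section
variable (P : Finset (ℕ × ℕ)) (a q : ℕ)

/-- half the width of the cells at the level `t` -/
def UU (t : ℕ) : ℕ := 2 ^ (a - 1 - t) * q

/-- the cell of `(x, r)` at the level `t` contains no point -/
noncomputable def ee (t x r : ℕ) : ℝ := by
  classical
  exact if ∃ p ∈ P, x / (2 * UU a q t) = p.1 / (2 * UU a q t) ∧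
    r / (2 * 2 ^ t) = p.2 / (2 * 2 ^ t) then 0 else 1

/-- the `r`-functions -/
noncomputable def ff (t x r : ℕ) : ℝ := -ee P a q t x r * (sg (UU a q t) x * sg (2 ^ t) r)

theorem ee_BCx (t r : ℕ) : BC (2 * UU a q t) (fun x => ee P a q t x r) := by
  intro x x' h
  unfold ee
  simp only [h]

theorem ee_BCr (t x : ℕ) : BC (2 * 2 ^ t) (fun r => ee P a q t x r) := by
  intro r r' h
  unfold ee
  simp only [h]

theorem ee_nonneg (t x r : ℕ) : 0 ≤ ee P a q t x r := by
  unfold ee; split_ifs <;> norm_num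

theorem ee_le_one (t x r : ℕ) : ee P a q t x r ≤ 1 := by
  unfold ee; split_ifs <;> norm_num

theorem abs_ff_le (t x r : ℕ) : |ff P a q t x r| ≤ 1 := by
  unfold ff
  rw [abs_mul, abs_neg, abs_mul, abs_sg, abs_sg, mul_one, mul_one, abs_of_nonneg (ee_nonneg _ _ _ _ _ _)]
  exact ee_le_one _ _ _ _ _ _

variable {a}

theorem UU_succ {s t : ℕ} (h : s < t) (ht : t < a) : UU a q s = UU a q t * 2 ^ (t - s) := by
  unfold UU
  have : a - 1 - s = (a - 1 - t) + (t - s) := by omega
  rw [this, pow_add]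
  ring

theorem ff_BCx {s t : ℕ} (h : s < t) (ht : t < a) (r : ℕ) :
    BC (2 * UU a q t) (fun x => ff P a q s x r) := by
  have hU := UU_succ q h ht
  have h2 : 2 ^ (t - s) = 2 * 2 ^ (t - s - 1) := by
    rw [← pow_succ']
    congr 1
    omega
  have e1 : BC (2 * UU a q t) (fun x => ee P a q s x r) := by
    apply BC.mono (2 ^ (t - s))
    have := ee_BCx P a q s r
    rw [hU] at this
    rw [mul_assoc]
    exact this
  have e2 : BC (2 * UU a q t) (sg (UU a q s)) := by
    apply BC.mono (2 ^ (t - s - 1))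
    have := sg_BC (UU a q s)
    rw [hU, h2] at this
    rw [hU, h2]
    convert this using 1
    ring
  exact e1.neg.mul (e2.mul (BC.const _ _))

theorem ff_BCr {s t : ℕ} (h : s < t) (x : ℕ) :
    BC (2 * 2 ^ s) (fun r => ff P a q t x r) := by
  have h2 : 2 ^ t = 2 * 2 ^ s * 2 ^ (t - s - 1) := by
    rw [← pow_succ', ← pow_add]
    congr 1
    omega
  have e1 : BC (2 * 2 ^ s) (fun r => ee P a q t x r) := by
    apply BC.mono (2 * 2 ^ (t - s - 1))
    have := ee_BCr P a q t x
    rw [h2] at this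
    convert this using 1
    ring
  have e2 : BC (2 * 2 ^ s) (sg (2 ^ t)) := by
    apply BC.mono (2 ^ (t - s - 1))
    have := sg_BC (2 ^ t)
    rw [h2] at this
    rw [h2]
    exact this
  exact e1.neg.mul ((BC.const _ _).mul e2)

variable (a)

/-- the Riesz product up to the level `t` -/
noncomputable def Ph (t x r : ℕ) : ℝ := ∏ i ∈ range t, (1 + ff P a q i x r / 4)

/-- the part of the Riesz product between `s` and `t` -/
noncomputable def Ps (s t x r : ℕ) : ℝ := ∏ i ∈ Finset.Ioo s t, (1 + ff P a q i x r / 4)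

theorem Ph_expand (t x r : ℕ) :
    Ph P a q t x r = 1 + ∑ s ∈ range t, ff P a q s x r / 4 * Ps P a q s t x r := by
  induction t with
  | zero => simp [Ph]
  | succ t ih =>
    have h1 : Ph P a q (t + 1) x r = Ph P a q t x r * (1 + ff P a q t x r / 4) := by
      unfold Ph; rw [Finset.prod_range_succ]
    have h2 : ∀ s ∈ range t, Ps P a q s (t + 1) x r = Ps P a q s t x r * (1 + ff P a q t x r / 4) := by
      intro s hs
      have hs' := mem_range.1 hs
      unfold Ps
      have : Finset.Ioo s (t + 1) = insert t (Finset.Ioo s t) := by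
        ext i; simp only [Finset.mem_Ioo, Finset.mem_insert]; omega
      rw [this, Finset.prod_insert (by simp), mul_comm]
    have h3 : Ps P a q t (t + 1) x r = 1 := by
      unfold Ps
      have : Finset.Ioo t (t + 1) = ∅ := by
        ext i; simp only [Finset.mem_Ioo, Finset.notMem_empty, iff_false]; omega
      rw [this, Finset.prod_empty]
    rw [h1, ih, Finset.sum_range_succ, h3]
    have h4 : ∑ s ∈ range t, ff P a q s x r / 4 * Ps P a q s (t + 1) x r =
        (∑ s ∈ range t, ff P a q s x r / 4 * Ps P a q s t x r) * (1 + ff P a q t x r / 4) := by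
      rw [Finset.sum_mul]
      refine Finset.sum_congr rfl fun s hs => ?_
      rw [h2 s hs]
      ring
    rw [h4]
    ring

theorem Ph_tele (t x r : ℕ) :
    Ph P a q t x r - 1 = ∑ s ∈ range t, ff P a q s x r / 4 * Ph P a q s x r := by
  induction t with
  | zero => simp [Ph]
  | succ t ih =>
    have h1 : Ph P a q (t + 1) x r = Ph P a q t x r * (1 + ff P a q t x r / 4) := by
      unfold Ph; rw [Finset.prod_range_succ]
    rw [Finset.sum_range_succ, ← ih, h1]
    ring

theorem Ph_pos (t x r : ℕ) : 0 < Ph P a q t x r := by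
  unfold Ph
  apply Finset.prod_pos
  intro i _
  have := (abs_le.1 (abs_ff_le P a q i x r)).1
  linarith

theorem abs_Ps_le (s t x r : ℕ) : |Ps P a q s t x r| ≤ (5 / 4) ^ (t - s - 1) := by
  unfold Ps
  rw [Finset.abs_prod]
  calc ∏ i ∈ Finset.Ioo s t, |1 + ff P a q i x r / 4| ≤ ∏ i ∈ Finset.Ioo s t, (5 / 4 : ℝ) := by
        apply Finset.prod_le_prod (fun _ _ => abs_nonneg _)
        intro i _
        have := abs_le.1 (abs_ff_le P a q i x r)
        rw [abs_le]
        constructor <;> linarith [this.1, this.2]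
    _ = _ := by rw [Finset.prod_const, Nat.card_Ioo]

variable {a}

theorem Ps_BCx {s t : ℕ} (ht : t < a) (r : ℕ) :
    BC (2 * UU a q t) (fun x => Ps P a q s t x r) := by
  unfold Ps
  apply BC.prod
  intro i hi
  have hi' := Finset.mem_Ioo.1 hi
  apply BC.add (BC.const _ _)
  have := ff_BCx P q hi'.2 ht r
  intro x x' h
  show ff P a q i x r / 4 = ff P a q i x' r / 4
  have h3 : ff P a q i x r = ff P a q i x' r := this x x' h
  rw [h3]

theorem Ps_BCr {s t : ℕ} (x : ℕ) :
    BC (2 * 2 ^ s) (fun r => Ps P a q s t x r) := by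
  unfold Ps
  apply BC.prod
  intro i hi
  have hi' := Finset.mem_Ioo.1 hi
  apply BC.add (BC.const _ _)
  have := ff_BCr (a := a) P q hi'.1 x
  intro r r' h
  show ff P a q i x r / 4 = ff P a q i x r' / 4
  have h3 : ff P a q i x r = ff P a q i x r' := this r r' h
  rw [h3]

/-- the sum of the Riesz product over a column -/
theorem sum_Ph (x : ℕ) : ∑ r ∈ range (2 ^ a), Ph P a q a x r = 2 ^ a := by
  have h0 : ∀ s ∈ range a, ∑ r ∈ range (2 ^ a), ff P a q s x r / 4 * Ps P a q s a x r = 0 := by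
    intro s hs
    have hs' := mem_range.1 hs
    have e : 2 ^ a = 2 * 2 ^ s * 2 ^ (a - s - 1) := by
      rw [← pow_succ', ← pow_add]; congr 1; omega
    rw [e]
    have hb : BC (2 * 2 ^ s) (fun r => (-ee P a q s x r * (sg (UU a q s) x / 4)) * Ps P a q s a x r) := by
      apply BC.mul
      · exact (ee_BCr P a q s x).neg.mul (BC.const _ _)
      · exact Ps_BCr P q x
    rw [← sum_sg (2 ^ s) (by positivity) _ hb (2 ^ (a - s - 1))]
    refine Finset.sum_congr rfl fun r _ => ?_
    unfold ff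
    ring
  simp only [Ph_expand]
  rw [Finset.sum_add_distrib, Finset.sum_comm, Finset.sum_eq_zero h0, add_zero, Finset.sum_const,
    card_range, nsmul_eq_mul, mul_one]
  push_cast
  rfl

end

/-- the number of the grid positions in the cells with points -/
theorem sum_ee (P : Finset (ℕ × ℕ)) (a q t : ℕ) (ht : t < a) (hq : 0 < q)
    (hP : P.card ≤ 2 ^ a) :
    (2 ^ (a + 2) * q : ℝ) * 2 ^ a / 2 ≤
      ∑ x ∈ range (2 ^ (a + 2) * q), ∑ r ∈ range (2 ^ a), ee P a q t x r := by
  classical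
  set U := UU a q t with hU
  have hUpos : 0 < U := by rw [hU]; unfold UU; positivity
  have hUV : U * 2 ^ t = 2 ^ (a - 1) * q := by
    rw [hU]; unfold UU
    have : a - 1 = (a - 1 - t) + t := by omega
    conv_rhs => rw [this, pow_add]
    ring
  have hpos : (0 : ℝ) < 2 * 2 ^ t := by positivity
  -- complement
  have h1 : ∀ x r, 1 - ee P a q t x r ≤ ∑ p ∈ P, (if x / (2 * U) = p.1 / (2 * U) then (1 : ℝ) else 0) *
      (if r / (2 * 2 ^ t) = p.2 / (2 * 2 ^ t) then (1 : ℝ) else 0) := by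
    intro x r
    have hnn : ∀ p ∈ P, (0 : ℝ) ≤ (if x / (2 * U) = p.1 / (2 * U) then (1 : ℝ) else 0) *
      (if r / (2 * 2 ^ t) = p.2 / (2 * 2 ^ t) then (1 : ℝ) else 0) := by
      intro p _; split_ifs <;> norm_num
    unfold ee
    split_ifs with h
    · obtain ⟨p, hp, hp1, hp2⟩ := h
      have := Finset.single_le_sum hnn hp
      rw [hU] at this ⊢
      rw [if_pos hp1, if_pos hp2] at this
      linarith
    · have := Finset.sum_nonneg hnn
      linarith
  have hblock : ∀ (L : ℕ) (_ : 0 < L) (K y : ℕ),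
      ∑ x ∈ range K, (if x / L = y / L then (1 : ℝ) else 0) ≤ L := by
    intro L hL K y
    rw [← Finset.sum_filter, Finset.sum_const, nsmul_eq_mul, mul_one]
    have : (range K).filter (fun x => x / L = y / L) ⊆ Finset.Ico (y / L * L) (y / L * L + L) := by
      intro x hx
      have hx2 := (Finset.mem_filter.1 hx).2
      rw [Finset.mem_Ico, ← hx2]
      have h3 := Nat.div_add_mod x L
      have h4 := Nat.mod_lt x hL
      rw [Nat.mul_comm] at h3
      omega
    have h5 := Finset.card_le_card this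
    rw [Nat.card_Ico] at h5
    exact_mod_cast (by omega : _ ≤ L)
  have h2 : ∑ x ∈ range (2 ^ (a + 2) * q), ∑ r ∈ range (2 ^ a), (1 - ee P a q t x r) ≤
      2 ^ a * ((2 * U : ℕ) * ((2 * 2 ^ t : ℕ) : ℝ)) := by
    calc ∑ x ∈ range (2 ^ (a + 2) * q), ∑ r ∈ range (2 ^ a), (1 - ee P a q t x r)
        ≤ ∑ x ∈ range (2 ^ (a + 2) * q), ∑ r ∈ range (2 ^ a),
          ∑ p ∈ P, (if x / (2 * U) = p.1 / (2 * U) then (1 : ℝ) else 0) *
      (if r / (2 * 2 ^ t) = p.2 / (2 * 2 ^ t) then (1 : ℝ) else 0) :=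
          Finset.sum_le_sum fun x _ => Finset.sum_le_sum fun r _ => h1 x r
      _ = ∑ p ∈ P, (∑ x ∈ range (2 ^ (a + 2) * q), (if x / (2 * U) = p.1 / (2 * U) then (1 : ℝ) else 0)) *
          (∑ r ∈ range (2 ^ a), (if r / (2 * 2 ^ t) = p.2 / (2 * 2 ^ t) then (1 : ℝ) else 0)) := by
          have : ∀ x, ∑ r ∈ range (2 ^ a),
            ∑ p ∈ P, (if x / (2 * U) = p.1 / (2 * U) then (1 : ℝ) else 0) *
            (if r / (2 * 2 ^ t) = p.2 / (2 * 2 ^ t) then (1 : ℝ) else 0) =
            ∑ p ∈ P, (if x / (2 * U) = p.1 / (2 * U) then (1 : ℝ) else 0) *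
            ∑ r ∈ range (2 ^ a), (if r / (2 * 2 ^ t) = p.2 / (2 * 2 ^ t) then (1 : ℝ) else 0) := by
            intro x
            rw [Finset.sum_comm]
            refine Finset.sum_congr rfl fun p _ => ?_
            rw [Finset.mul_sum]
          simp only [this]
          rw [Finset.sum_comm]
          refine Finset.sum_congr rfl fun p _ => ?_
          rw [Finset.sum_mul]
      _ ≤ ∑ p ∈ P, ((2 * U : ℕ) * ((2 * 2 ^ t : ℕ) : ℝ)) := by
          refine Finset.sum_le_sum fun p _ => ?_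
          apply mul_le_mul (hblock (2 * U) (by omega) _ _) (hblock (2 * 2 ^ t) (by positivity) _ _)
          · apply Finset.sum_nonneg; intro _ _; split_ifs <;> norm_num
          · positivity
      _ ≤ 2 ^ a * ((2 * U : ℕ) * ((2 * 2 ^ t : ℕ) : ℝ)) := by
          rw [Finset.sum_const, nsmul_eq_mul]
          apply mul_le_mul_of_nonneg_right _ (by positivity)
          exact_mod_cast hP
  have h3 : ∑ x ∈ range (2 ^ (a + 2) * q), ∑ r ∈ range (2 ^ a), (1 - ee P a q t x r) =
      (2 ^ (a + 2) * q : ℝ) * 2 ^ a -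
        ∑ x ∈ range (2 ^ (a + 2) * q), ∑ r ∈ range (2 ^ a), ee P a q t x r := by
    simp only [Finset.sum_sub_distrib, Finset.sum_const, card_range, nsmul_eq_mul, mul_one]
    push_cast
    ring
  have h4 : (2 : ℝ) ^ a * ((2 * U : ℕ) * ((2 * 2 ^ t : ℕ) : ℝ)) = (2 ^ (a + 2) * q : ℝ) * 2 ^ a / 2 := by
    have : ((U * 2 ^ t : ℕ) : ℝ) = ((2 ^ (a - 1) * q : ℕ) : ℝ) := by rw [hUV]
    push_cast at this ⊢
    have h5 : (2 : ℝ) ^ a = 2 * 2 ^ (a - 1) := by
      rw [← pow_succ']; congr 1; omega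
    have h6 : (2 : ℝ) ^ (a + 2) = 4 * 2 ^ a := by rw [pow_add]; norm_num; ring
    calc (2 : ℝ) ^ a * (2 * U * (2 * 2 ^ t)) = 4 * 2 ^ a * (U * 2 ^ t) := by ring
      _ = 4 * 2 ^ a * (2 ^ (a - 1) * q) := by rw [this]
      _ = _ := by rw [h6]; rw [h5]; ring
  rw [h3, h4] at h2
  linarith

end Pool.Agent.H64.SD
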