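import Pool.Agent.H64.SD.Main

set_option autoImplicit false
set_option linter.unusedSectionVars false

/-!
# Digits of indices and of points of a sequence
-/

namespace Pool.Agent.H64.SD

open Finset MeasureTheory

/-- the digits of `n` below `b ^ m` -/
theorem sum_digits_nat (b : ℕ) (m n : ℕ) :
    ∑ i ∈ range m, (n / b ^ i % b) * b ^ i = n % b ^ m := by
  induction m with
  | zero => simp [Nat.mod_one]
  | succ m ih =>
    rw [Finset.sum_range_succ, ih, Nat.mod_pow_succ]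
    ring

theorem floor_step (b : ℕ) (hb : 0 < b) (z : ℝ) (hz : 0 ≤ z) (m : ℕ) :
    ⌊z * (b : ℝ) ^ (m + 1)⌋₊ = b * ⌊z * (b : ℝ) ^ m⌋₊ + ⌊z * (b : ℝ) ^ (m + 1)⌋₊ % b := by
  have h1 : ⌊z * (b : ℝ) ^ m⌋₊ = ⌊z * (b : ℝ) ^ (m + 1)⌋₊ / b := by
    rw [← Nat.floor_div_natCast]
    congr 1
    have : (b : ℝ) ≠ 0 := by positivity
    rw [pow_succ]
    field_simp
  rw [h1]
  exact (Nat.div_add_mod _ _).symm

theorem sum_digits_real (b : ℕ) (hb : 0 < b) (z : ℝ) (hz : 0 ≤ z) (hz1 : z < 1) (m : ℕ) :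
    ∑ i ∈ range m, ((⌊z * (b : ℝ) ^ (i + 1)⌋₊ % b : ℕ) : ℝ) / (b : ℝ) ^ (i + 1) =
      (⌊z * (b : ℝ) ^ m⌋₊ : ℝ) / (b : ℝ) ^ m := by
  have hb0 : (0 : ℝ) < b := by exact_mod_cast hb
  induction m with
  | zero =>
    have : ⌊z⌋₊ = 0 := Nat.floor_eq_zero.2 hz1
    simp [this]
  | succ m ih =>
    rw [Finset.sum_range_succ, ih]
    have h := floor_step b hb z hz m
    have h' : ((⌊z * (b : ℝ) ^ (m + 1)⌋₊ : ℕ) : ℝ) =
        b * (⌊z * (b : ℝ) ^ m⌋₊ : ℝ) + ((⌊z * (b : ℝ) ^ (m + 1)⌋₊ % b : ℕ) : ℝ) := by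
      exact_mod_cast h
    rw [h', pow_succ]
    field_simp

/-- the word of the term number `n` -/
noncomputable def wd {b m d : ℕ} (hb : 0 < b) (z : ℕ → Fin d → ℝ) (n : ℕ) :
    Fin (d + 1) × Fin m → Fin b := fun x =>
  Fin.cases (motive := fun _ => Fin b) ⟨n / b ^ (m - 1 - x.2.val) % b, Nat.mod_lt _ hb⟩
    (fun j => ⟨⌊z n j * (b : ℝ) ^ (x.2.val + 1)⌋₊ % b, Nat.mod_lt _ hb⟩) x.1

theorem pt_wd_zero {b m d : ℕ} (hb : 0 < b) (z : ℕ → Fin d → ℝ) (n : ℕ) (hn : n < b ^ m) :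
    pt (wd (m := m) hb z n) 0 = (n : ℝ) / (b : ℝ) ^ m := by
  have hb0 : (0 : ℝ) < b := by exact_mod_cast hb
  unfold pt wd
  simp only [Fin.cases_zero]
  rw [Fin.sum_univ_eq_sum_range (fun i => ((n / b ^ (m - 1 - i) % b : ℕ) : ℝ) / (b : ℝ) ^ (i + 1)) m]
  rw [← Finset.sum_range_reflect]
  have h1 : ∀ i ∈ range m, ((n / b ^ (m - 1 - (m - 1 - i)) % b : ℕ) : ℝ) /
      (b : ℝ) ^ (m - 1 - i + 1) = (((n / b ^ i % b) * b ^ i : ℕ) : ℝ) / (b : ℝ) ^ m := by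
    intro i hi
    have hi' := Finset.mem_range.1 hi
    rw [show m - 1 - (m - 1 - i) = i by omega, show m - 1 - i + 1 = m - i by omega]
    rw [div_eq_div_iff (by positivity) (by positivity)]
    push_cast
    rw [mul_assoc, ← pow_add, show i + (m - i) = m by omega]
  rw [Finset.sum_congr rfl h1, ← Finset.sum_div]
  congr 1
  rw [← Nat.cast_sum, sum_digits_nat, Nat.mod_eq_of_lt hn]

theorem pt_wd_succ {b m d : ℕ} (hb : 0 < b) (z : ℕ → Fin d → ℝ) (n : ℕ) (j : Fin d)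
    (hz : 0 ≤ z n j) (hz1 : z n j < 1) :
    pt (wd (m := m) hb z n) j.succ = (⌊z n j * (b : ℝ) ^ m⌋₊ : ℝ) / (b : ℝ) ^ m := by
  unfold pt wd
  simp only [Fin.cases_succ]
  rw [Fin.sum_univ_eq_sum_range
    (fun i => ((⌊z n j * (b : ℝ) ^ (i + 1)⌋₊ % b : ℕ) : ℝ) / (b : ℝ) ^ (i + 1)) m]
  exact sum_digits_real b hb (z n j) hz hz1 m

end Pool.Agent.H64.SD
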