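import Pool.Agent.H64.SD.Lin

set_option autoImplicit false
set_option linter.unusedSectionVars false

/-!
# Star discrepancy and the number of points in `b`-adic boxes
-/

namespace Pool.Agent.H64.SD

open Finset MeasureTheory

variable {d m b : ℕ}

/-- the point of `[0,1)^d` with the given `b`-adic digits -/
noncomputable def pt (f : Fin d × Fin m → Fin b) (j : Fin d) : ℝ :=
  ∑ i : Fin m, ((f (j, i)).val : ℝ) / (b : ℝ) ^ (i.val + 1)

/-- number of points in the box below `x` -/
noncomputable def nb (A : Finset (Fin d × Fin m → Fin b)) (x : Fin d → ℝ) : ℝ :=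
  ∑ f ∈ A, ∏ j, (if pt f j ≤ x j then (1 : ℝ) else 0)

theorem nb_nonneg (A : Finset (Fin d × Fin m → Fin b)) (x : Fin d → ℝ) : 0 ≤ nb A x :=
  Finset.sum_nonneg fun _ _ => Finset.prod_nonneg fun _ _ => by split_ifs <;> norm_num

theorem pt_nonneg (f : Fin d × Fin m → Fin b) (j : Fin d) : 0 ≤ pt f j :=
  Finset.sum_nonneg fun _ _ => by positivity

theorem nb_zero_of_neg (A : Finset (Fin d × Fin m → Fin b)) (x : Fin d → ℝ) (j : Fin d)
    (hj : x j < 0) : nb A x = 0 := by
  unfold nb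
  apply Finset.sum_eq_zero
  intro f _
  apply Finset.prod_eq_zero (Finset.mem_univ j)
  rw [if_neg]
  have := pt_nonneg f j
  linarith

theorem ext_bound (A : Finset (Fin d × Fin m → Fin b)) (Δ : ℝ) (hΔ0 : 0 ≤ Δ)
    (hΔ : ∀ x : Fin d → ℝ, (∀ j, 0 ≤ x j) → (∀ j, x j < 1) → |nb A x - A.card * ∏ j, x j| ≤ Δ)
    (x : Fin d → ℝ) (hx : ∀ j, x j < 1) : |nb A x - A.card * ∏ j, max (x j) 0| ≤ Δ := by
  by_cases h : ∀ j, 0 ≤ x j
  · have : ∀ j, max (x j) 0 = x j := fun j => max_eq_left (h j)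
    simp only [this]
    exact hΔ x h hx
  · push Not at h
    obtain ⟨j, hj⟩ := h
    rw [nb_zero_of_neg A x j hj, Finset.prod_eq_zero (Finset.mem_univ j) (max_eq_right hj.le)]
    simpa using hΔ0

/-- number of points in a half-open box -/
theorem box_bound (A : Finset (Fin d × Fin m → Fin b)) (Δ : ℝ) (hΔ0 : 0 ≤ Δ)
    (hΔ : ∀ x : Fin d → ℝ, (∀ j, 0 ≤ x j) → (∀ j, x j < 1) → |nb A x - A.card * ∏ j, x j| ≤ Δ)
    (l v : Fin d → ℝ) (hlv : ∀ j, l j ≤ v j) (hv : ∀ j, v j < 1) :
    ((A.filter (fun f => ∀ j, l j < pt f j ∧ pt f j ≤ v j)).card : ℝ) ≤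
      A.card * ∏ j, (max (v j) 0 - max (l j) 0) + 2 ^ d * Δ := by
  classical
  let c : Finset (Fin d) → Fin d → ℝ := fun t j => if j ∈ t then l j else v j
  have hc1 : ∀ t j, c t j < 1 := by
    intro t j
    simp only [c]
    split_ifs
    · exact lt_of_le_of_lt (hlv j) (hv j)
    · exact hv j
  -- the count
  have h1 : ((A.filter (fun f => ∀ j, l j < pt f j ∧ pt f j ≤ v j)).card : ℝ) =
      ∑ f ∈ A, ∏ j, ((if pt f j ≤ v j then (1 : ℝ) else 0) - (if pt f j ≤ l j then (1 : ℝ) else 0)) := by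
    rw [Finset.card_filter]
    push_cast
    refine Finset.sum_congr rfl fun f _ => ?_
    by_cases h : ∀ j, l j < pt f j ∧ pt f j ≤ v j
    · rw [if_pos h]
      symm
      apply Finset.prod_eq_one
      intro j _
      rw [if_pos (h j).2, if_neg (by have := (h j).1; linarith)]
      norm_num
    · rw [if_neg h]
      push Not at h
      obtain ⟨j, hj⟩ := h
      symm
      apply Finset.prod_eq_zero (Finset.mem_univ j)
      by_cases h2 : l j < pt f j
      · have h3 := hj h2
        rw [if_neg (by linarith), if_neg (by linarith)]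
        norm_num
      · push Not at h2
        rw [if_pos (h2.trans (hlv j)), if_pos h2]
        norm_num
  have hprod : ∀ (t : Finset (Fin d)) (p q : Fin d → ℝ),
      (∏ j ∈ univ \ t, p j) * ∏ j ∈ t, q j = ∏ j, (if j ∈ t then q j else p j) := by
    intro t p q
    rw [Finset.prod_ite, mul_comm]
    congr 1
    · congr 1
      ext j; simp
    · congr 1
      ext j; simp
  have h2 : ((A.filter (fun f => ∀ j, l j < pt f j ∧ pt f j ≤ v j)).card : ℝ) =
      ∑ t ∈ (univ : Finset (Fin d)).powerset, (-1) ^ t.card * nb A (c t) := by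
    rw [h1]
    have : ∀ f ∈ A, ∏ j, ((if pt f j ≤ v j then (1 : ℝ) else 0) -
        (if pt f j ≤ l j then (1 : ℝ) else 0)) =
        ∑ t ∈ (univ : Finset (Fin d)).powerset, (-1) ^ t.card *
          ∏ j, (if pt f j ≤ c t j then (1 : ℝ) else 0) := by
      intro f _
      rw [Finset.prod_sub]
      refine Finset.sum_congr rfl fun t _ => ?_
      rw [mul_assoc, hprod]
      congr 1
      refine Finset.prod_congr rfl fun j _ => ?_
      simp only [c]
      split_ifs <;> rfl
    rw [Finset.sum_congr rfl this, Finset.sum_comm]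
    refine Finset.sum_congr rfl fun t _ => ?_
    unfold nb
    rw [Finset.mul_sum]
  have h3 : (A.card : ℝ) * ∏ j, (max (v j) 0 - max (l j) 0) =
      ∑ t ∈ (univ : Finset (Fin d)).powerset, (-1) ^ t.card * (A.card * ∏ j, max (c t j) 0) := by
    rw [Finset.prod_sub, Finset.mul_sum]
    refine Finset.sum_congr rfl fun t _ => ?_
    rw [mul_assoc, hprod]
    have : ∀ j, (if j ∈ t then max (l j) 0 else max (v j) 0) = max (c t j) 0 := by
      intro j
      simp only [c]
      split_ifs <;> rfl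
    simp only [this]
    ring
  have h4 : |∑ t ∈ (univ : Finset (Fin d)).powerset, (-1) ^ t.card * nb A (c t) -
      ∑ t ∈ (univ : Finset (Fin d)).powerset, (-1) ^ t.card * (A.card * ∏ j, max (c t j) 0)| ≤
      2 ^ d * Δ := by
    rw [← Finset.sum_sub_distrib]
    calc |∑ t ∈ (univ : Finset (Fin d)).powerset, ((-1) ^ t.card * nb A (c t) -
        (-1) ^ t.card * (A.card * ∏ j, max (c t j) 0))|
        ≤ ∑ t ∈ (univ : Finset (Fin d)).powerset, |(-1) ^ t.card * nb A (c t) -
        (-1) ^ t.card * (A.card * ∏ j, max (c t j) 0)| := Finset.abs_sum_le_sum_abs _ _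
      _ ≤ ∑ t ∈ (univ : Finset (Fin d)).powerset, Δ := by
          refine Finset.sum_le_sum fun t _ => ?_
          rw [← mul_sub, abs_mul, abs_pow, abs_neg, abs_one, one_pow, one_mul]
          exact ext_bound A Δ hΔ0 hΔ (c t) (hc1 t)
      _ = 2 ^ d * Δ := by
          rw [Finset.sum_const, Finset.card_powerset, Finset.card_univ, Fintype.card_fin,
            nsmul_eq_mul]
          push_cast
          ring
  rw [h2, h3]
  have := (abs_le.1 h4).2
  linarith

/-- the digits from position `a` on contribute at most `b^(-a) - b^(-m)` -/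
theorem tail_le (hb : 2 ≤ b) (f : Fin m → Fin b) (a : ℕ) (ha : a ≤ m) :
    ∑ i ∈ univ.filter (fun i : Fin m => a ≤ i.val), ((f i).val : ℝ) / (b : ℝ) ^ (i.val + 1) ≤
      1 / (b : ℝ) ^ a - 1 / (b : ℝ) ^ m := by
  have hb0 : (0 : ℝ) < b := by exact_mod_cast (by omega : 0 < b)
  have h1 : ∀ i : Fin m, ((f i).val : ℝ) / (b : ℝ) ^ (i.val + 1) ≤
      1 / (b : ℝ) ^ i.val - 1 / (b : ℝ) ^ (i.val + 1) := by
    intro i
    have h2 : ((f i).val : ℝ) ≤ b - 1 := by
      have : (f i).val + 1 ≤ b := (f i).isLt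
      have h3 : (((f i).val + 1 : ℕ) : ℝ) ≤ b := by exact_mod_cast this
      push_cast at h3
      linarith
    rw [pow_succ]
    have hp : (0 : ℝ) < (b : ℝ) ^ i.val := by positivity
    rw [div_sub_div _ _ hp.ne' (by positivity), div_le_div_iff₀ (by positivity) (by positivity)]
    have h4 : ((f i).val : ℝ) * ((b : ℝ) ^ i.val * ((b : ℝ) ^ i.val * b)) ≤
        (b - 1) * ((b : ℝ) ^ i.val * ((b : ℝ) ^ i.val * b)) :=
      mul_le_mul_of_nonneg_right h2 (by positivity)
    refine h4.trans (le_of_eq ?_)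
    ring
  calc ∑ i ∈ univ.filter (fun i : Fin m => a ≤ i.val), ((f i).val : ℝ) / (b : ℝ) ^ (i.val + 1)
      ≤ ∑ i ∈ univ.filter (fun i : Fin m => a ≤ i.val),
        (1 / (b : ℝ) ^ i.val - 1 / (b : ℝ) ^ (i.val + 1)) := Finset.sum_le_sum fun i _ => h1 i
    _ = ∑ i ∈ Finset.Ico a m, (1 / (b : ℝ) ^ i - 1 / (b : ℝ) ^ (i + 1)) := by
        symm
        refine Finset.sum_bij' (fun i hi => (⟨i, (Finset.mem_Ico.1 hi).2⟩ : Fin m))
          (fun i _ => i.val) ?_ ?_ ?_ ?_ ?_
        · intro i hi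
          simp only [Finset.mem_filter, Finset.mem_univ, true_and]
          exact (Finset.mem_Ico.1 hi).1
        · intro i hi
          exact Finset.mem_Ico.2 ⟨(Finset.mem_filter.1 hi).2, i.isLt⟩
        · intro i _; rfl
        · intro i _; rfl
        · intro i _; rfl
    _ = 1 / (b : ℝ) ^ a - 1 / (b : ℝ) ^ m := by
        rw [Finset.sum_Ico_eq_sum_range]
        have := Finset.sum_range_sub' (fun k => 1 / (b : ℝ) ^ (a + k)) (m - a)
        simp only [Nat.add_zero] at this
        rw [show a + (m - a) = m by omega] at this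
        rw [← this]
        rfl

/-- the integer part of the digits before `a` -/
theorem pt_split (f : Fin d × Fin m → Fin b) (j : Fin d) (a : ℕ) :
    pt f j = ∑ i ∈ univ.filter (fun i : Fin m => i.val < a), ((f (j, i)).val : ℝ) / (b : ℝ) ^ (i.val + 1) +
      ∑ i ∈ univ.filter (fun i : Fin m => a ≤ i.val), ((f (j, i)).val : ℝ) / (b : ℝ) ^ (i.val + 1) := by
  unfold pt
  rw [← Finset.sum_filter_add_sum_filter_not univ (fun i : Fin m => i.val < a)]
  congr 1
  refine Finset.sum_congr ?_ fun _ _ => rfl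
  ext i
  simp

theorem fibre_bound (hb : 2 ≤ b) (A : Finset (Fin d × Fin m → Fin b)) (Δ : ℝ) (hΔ0 : 0 ≤ Δ)
    (hΔ : ∀ x : Fin d → ℝ, (∀ j, 0 ≤ x j) → (∀ j, x j < 1) → |nb A x - A.card * ∏ j, x j| ≤ Δ)
    (a : Fin d → ℕ) (ha : ∀ j, a j ≤ m) (z : Fin b) (u : Fin d × Fin m → Fin b) :
    ((A.filter (fun f => mask z (Spre a) f = u)).card : ℝ) ≤
      A.card / (b : ℝ) ^ (∑ j, a j) + 2 ^ d * Δ := by
  classical
  have hb0 : (0 : ℝ) < b := by exact_mod_cast (by omega : 0 < b)
  have hb1 : (1 : ℝ) ≤ b := by exact_mod_cast (by omega : 1 ≤ b)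
  rcases (A.filter (fun f => mask z (Spre a) f = u)).eq_empty_or_nonempty with he | ⟨f0, hf0⟩
  · rw [he, Finset.card_empty, Nat.cast_zero]
    positivity
  have hf0' := (Finset.mem_filter.1 hf0).2
  let U : Fin d → ℝ := fun j =>
    ∑ i ∈ univ.filter (fun i : Fin m => i.val < a j), ((f0 (j, i)).val : ℝ) / (b : ℝ) ^ (i.val + 1)
  have hU0 : ∀ j, 0 ≤ U j := fun j => Finset.sum_nonneg fun _ _ => by positivity
  have hU1 : ∀ j, U j ≤ 1 - 1 / (b : ℝ) ^ (a j) := by
    intro j
    -- extend the prefix by the digits `b-1`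
    let g : Fin (a j) → Fin b := fun i => f0 (j, ⟨i.val, lt_of_lt_of_le i.isLt (ha j)⟩)
    have h := tail_le hb g 0 (Nat.zero_le _)
    rw [pow_zero, div_one] at h
    refine le_trans (le_of_eq ?_) h
    simp only [U]
    symm
    refine Finset.sum_bij' (fun i _ => (⟨i.val, lt_of_lt_of_le i.isLt (ha j)⟩ : Fin m))
      (fun i hi => (⟨i.val, (Finset.mem_filter.1 hi).2⟩ : Fin (a j))) ?_ ?_ ?_ ?_ ?_
    · intro i _
      simp
    · intro i hi
      simp
    · intro i _; rfl
    · intro i _; rfl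
    · intro i _; rfl
  let v : Fin d → ℝ := fun j => U j + (1 / (b : ℝ) ^ (a j) - 1 / (b : ℝ) ^ m)
  let l : Fin d → ℝ := fun j => U j - 1 / (b : ℝ) ^ m
  have hm0 : (0 : ℝ) < 1 / (b : ℝ) ^ m := by positivity
  have ham : ∀ j, 1 / (b : ℝ) ^ m ≤ 1 / (b : ℝ) ^ (a j) := by
    intro j
    exact one_div_le_one_div_of_le (by positivity) (pow_le_pow_right₀ hb1 (ha j))
  have hv0 : ∀ j, 0 ≤ v j := fun j => by
    have := hU0 j; have := ham j; simp only [v]; linarith
  have hv1 : ∀ j, v j < 1 := fun j => by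
    have := hU1 j; simp only [v]; linarith
  have hlv : ∀ j, l j ≤ v j := fun j => by
    have : (0 : ℝ) < 1 / (b : ℝ) ^ (a j) := by positivity
    simp only [v, l]; linarith
  have hsub : A.filter (fun f => mask z (Spre a) f = u) ⊆
      A.filter (fun f => ∀ j, l j < pt f j ∧ pt f j ≤ v j) := by
    intro f hf
    rw [Finset.mem_filter] at hf ⊢
    refine ⟨hf.1, fun j => ?_⟩
    have hagree : ∀ i : Fin m, i.val < a j → f (j, i) = f0 (j, i) := by
      intro i hi
      have h1 := congrFun (hf.2.trans hf0'.symm) (j, i)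
      simp only [mask, Spre, Finset.mem_filter, Finset.mem_univ, true_and, hi, if_true] at h1
      exact h1
    have hs : ∑ i ∈ univ.filter (fun i : Fin m => i.val < a j),
        ((f (j, i)).val : ℝ) / (b : ℝ) ^ (i.val + 1) = U j := by
      refine Finset.sum_congr rfl fun i hi => ?_
      rw [hagree i (Finset.mem_filter.1 hi).2]
    have ht := tail_le hb (fun i => f (j, i)) (a j) (ha j)
    have ht0 : 0 ≤ ∑ i ∈ univ.filter (fun i : Fin m => a j ≤ i.val),
        ((f (j, i)).val : ℝ) / (b : ℝ) ^ (i.val + 1) := Finset.sum_nonneg fun _ _ => by positivity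
    rw [pt_split f j (a j), hs]
    constructor
    · simp only [l]; linarith
    · simp only [v]; linarith
  calc ((A.filter (fun f => mask z (Spre a) f = u)).card : ℝ)
      ≤ ((A.filter (fun f => ∀ j, l j < pt f j ∧ pt f j ≤ v j)).card : ℝ) := by
        exact_mod_cast Finset.card_le_card hsub
    _ ≤ A.card * ∏ j, (max (v j) 0 - max (l j) 0) + 2 ^ d * Δ :=
        box_bound A Δ hΔ0 hΔ l v hlv hv1
    _ ≤ A.card * ∏ j, (1 / (b : ℝ) ^ (a j)) + 2 ^ d * Δ := by
        have : ∏ j, (max (v j) 0 - max (l j) 0) ≤ ∏ j, (1 / (b : ℝ) ^ (a j)) := by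
          apply Finset.prod_le_prod
          · intro j _
            have : max (l j) 0 ≤ max (v j) 0 := max_le_max (hlv j) le_rfl
            linarith
          · intro j _
            have h1 : max (v j) 0 = v j := max_eq_left (hv0 j)
            have h2 : l j ≤ max (l j) 0 := le_max_left _ _
            rw [h1]
            simp only [v, l] at h2 ⊢
            linarith
        have h2 := mul_le_mul_of_nonneg_left this (Nat.cast_nonneg (α := ℝ) A.card)
        linarith
    _ = _ := by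
        have : ∏ j, (1 / (b : ℝ) ^ (a j)) = 1 / (b : ℝ) ^ (∑ j, a j) := by
          rw [← Finset.prod_pow_eq_pow_sum]
          simp only [one_div, Finset.prod_inv_distrib]
        rw [this, mul_one_div]

/-- all the points have coordinates at most `1 - b^(-m)` -/
theorem trivial_bound (hb : 2 ≤ b) (hd : 0 < d) (A : Finset (Fin d × Fin m → Fin b)) (Δ : ℝ)
    (hΔ : ∀ x : Fin d → ℝ, (∀ j, 0 ≤ x j) → (∀ j, x j < 1) → |nb A x - A.card * ∏ j, x j| ≤ Δ) :
    (A.card : ℝ) / (b : ℝ) ^ m ≤ Δ := by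
  have hb0 : (0 : ℝ) < b := by exact_mod_cast (by omega : 0 < b)
  have hb1 : (1 : ℝ) ≤ b := by exact_mod_cast (by omega : 1 ≤ b)
  have hm0 : (0 : ℝ) < 1 / (b : ℝ) ^ m := by positivity
  have hm1 : 1 / (b : ℝ) ^ m ≤ 1 := by
    rw [div_le_one (by positivity)]
    exact one_le_pow₀ hb1
  have h := hΔ (fun _ => 1 - 1 / (b : ℝ) ^ m) (fun _ => by linarith) (fun _ => by linarith)
  have h1 : nb A (fun _ => 1 - 1 / (b : ℝ) ^ m) = A.card := by
    unfold nb
    rw [Finset.card_eq_sum_ones]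
    push_cast
    refine Finset.sum_congr rfl fun f _ => ?_
    apply Finset.prod_eq_one
    intro j _
    rw [if_pos]
    have h2 := tail_le hb (fun i => f (j, i)) 0 (Nat.zero_le _)
    rw [pow_zero, div_one] at h2
    refine le_trans (le_of_eq ?_) h2
    unfold pt
    refine Finset.sum_congr ?_ fun _ _ => rfl
    ext i; simp
  rw [h1, Finset.prod_const, Finset.card_univ, Fintype.card_fin] at h
  have h3 : (1 - 1 / (b : ℝ) ^ m) ^ d ≤ 1 - 1 / (b : ℝ) ^ m := by
    calc (1 - 1 / (b : ℝ) ^ m) ^ d ≤ (1 - 1 / (b : ℝ) ^ m) ^ 1 :=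
          pow_le_pow_of_le_one (by linarith) (by linarith) hd
      _ = _ := pow_one _
  have h4 := (abs_le.1 h).2
  have h5 : (A.card : ℝ) * (1 - 1 / (b : ℝ) ^ m) ^ d ≤ A.card * (1 - 1 / (b : ℝ) ^ m) :=
    mul_le_mul_of_nonneg_left h3 (Nat.cast_nonneg _)
  have h6 : (A.card : ℝ) * (1 - 1 / (b : ℝ) ^ m) = A.card - A.card / (b : ℝ) ^ m := by ring
  linarith

end Pool.Agent.H64.SD
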